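import Pool.Agent.H45.LW.Scal

/-!
The cost of the certificate is at most `2`, complex matrices (MP_642cb2_an): the proof of
`Pool.Agent.H48.LW.cost_le_two` with `normSq` instead of squares.
-/

set_option autoImplicit false

open Matrix Finset
open Pool.Agent.H48.LW

namespace Pool.Agent.H45.LW

variable {n : ℕ}

theorem cost_le_two (M : Matrix (Fin n) (Fin n) ℂ) (z : ℂ) (r : Fin n → ℝ) (i j : Fin n)
    (hij : i ≠ j) (hM : Mᴴ * M + M * Mᴴ = diagonal (fun a => (r a : ℂ)))
    (hx : M i i + M j j = 0) (h1 : r j ≤ r i) (h2 : ∀ a, a ≠ i → r a ≤ r j)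
    (h3 : ∑ a, ∑ b, Complex.normSq ((M + z • (1 : Matrix (Fin n) (Fin n) ℂ)) a b) = 1) :
    ∑ a, ∑ b, (1 - 1 / max 1 (r a + r b)) * ((r a + r b) / 2
      - 2 * ((M a a).re * (M b b).re + (M a a).im * (M b b).im)) ≤ 2 := by
  classical
  change ∑ a, ∑ b, phi (r a + r b) * ((r a + r b) / 2
      - 2 * ((M a a).re * (M b b).re + (M a a).im * (M b b).im)) ≤ 2
  obtain ⟨N, hN⟩ : ∃ N : Fin n → Fin n → ℝ, ∀ a b, N a b = Complex.normSq (M a b) :=
    ⟨fun a b => Complex.normSq (M a b), fun _ _ => rfl⟩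
  obtain ⟨P, hP⟩ : ∃ P : Fin n → Fin n → ℝ, ∀ a b,
      P a b = Complex.normSq ((M + z • (1 : Matrix (Fin n) (Fin n) ℂ)) a b) :=
    ⟨fun a b => Complex.normSq ((M + z • (1 : Matrix (Fin n) (Fin n) ℂ)) a b), fun _ _ => rfl⟩
  simp_rw [← hP] at h3
  have hN0 : ∀ a b, 0 ≤ N a b := fun a b => by rw [hN]; exact Complex.normSq_nonneg _
  have hNd : ∀ a, N a a = (M a a).re ^ 2 + (M a a).im ^ 2 := fun a => by
    rw [hN, Complex.normSq_apply]; ring
  have hr : ∀ a, r a = ∑ k, (N k a + N a k) := by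
    intro a
    have h := congrFun (congrFun hM a) a
    rw [Matrix.diagonal_apply_eq, Matrix.add_apply, Matrix.mul_apply, Matrix.mul_apply,
      ← Finset.sum_add_distrib] at h
    have h' : ((∑ k, (N k a + N a k) : ℝ) : ℂ) = (r a : ℂ) := by
      rw [← h]
      push_cast
      refine Finset.sum_congr rfl fun k _ => ?_
      rw [Matrix.conjTranspose_apply, Matrix.conjTranspose_apply, hN, hN, Complex.normSq_eq_conj_mul_self,
        ← Complex.mul_conj]
      rfl
    exact_mod_cast h'.symm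
  set L := r i with hLdef
  set m := r j with hmdef
  have hle : ∀ a, r a ≤ L := by
    intro a
    by_cases h : a = i
    · rw [h]
    · exact (h2 a h).trans h1
  rcases le_or_gt L (1 / 2) with hL | hL
  · refine le_trans (le_of_eq ?_) (show (0 : ℝ) ≤ 2 by norm_num)
    refine Finset.sum_eq_zero fun a _ => Finset.sum_eq_zero fun b _ => ?_
    rw [phi_of_le (by linarith [hle a, hle b]), zero_mul]
  let G : Finset (Fin n) := (Finset.univ.erase i).erase j
  have hGi : ∀ g ∈ G, g ≠ i := fun g hg => by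
    simp only [G, Finset.mem_erase] at hg; exact hg.2.1
  have hGj : ∀ g ∈ G, g ≠ j := fun g hg => by
    simp only [G, Finset.mem_erase] at hg; exact hg.1
  have split : ∀ f : Fin n → ℝ, ∑ a, f a = f i + f j + ∑ a ∈ G, f a := by
    intro f
    rw [← Finset.add_sum_erase Finset.univ f (Finset.mem_univ i),
      ← Finset.add_sum_erase (Finset.univ.erase i) f
        (Finset.mem_erase.mpr ⟨hij.symm, Finset.mem_univ j⟩), add_assoc]
  have hMj : M j j = - M i i := by linear_combination hx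
  obtain ⟨x, hxx⟩ : ∃ x, x = (M i i).re := ⟨_, rfl⟩
  obtain ⟨y, hyy⟩ : ∃ y, y = (M i i).im := ⟨_, rfl⟩
  have hjre : (M j j).re = -x := by rw [hMj, hxx]; rfl
  have hjim : (M j j).im = -y := by rw [hMj, hyy]; rfl
  obtain ⟨q, hqdef⟩ : ∃ q, q = x ^ 2 + y ^ 2 := ⟨_, rfl⟩
  have hNi : N i i = q := by rw [hNd, ← hxx, ← hyy, hqdef]
  have hNj : N j j = q := by rw [hNd, hjre, hjim, hqdef]; ring
  have hq0 : 0 ≤ q := by rw [hqdef]; positivity
  let w : Fin n → ℝ := fun g => -((M g g).re + z.re)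
  let v : Fin n → ℝ := fun g => -((M g g).im + z.im)
  let β : Fin n → ℝ := fun g => N i g + N g i + N j g + N g j
  let o : Fin n → ℝ := fun g => ∑ h ∈ G.erase g, (N g h + N h g)
  let t : Fin n → ℝ := fun g => x * (M g g).re + y * (M g g).im
  let b : ℝ := ∑ g ∈ G, (N j g + N g j)
  let b' : ℝ := ∑ g ∈ G, (N i g + N g i)
  let τ : ℝ := ∑ g ∈ G, ∑ h ∈ G, P g h
  have hβ0 : ∀ g, 0 ≤ β g := fun g => by
    have := hN0 i g; have := hN0 g i; have := hN0 j g; have := hN0 g j
    simp only [β]; linarith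
  have ho0 : ∀ g, 0 ≤ o g := fun g => Finset.sum_nonneg fun h _ => add_nonneg (hN0 _ _) (hN0 _ _)
  have hb0 : 0 ≤ b := Finset.sum_nonneg fun h _ => add_nonneg (hN0 _ _) (hN0 _ _)
  have hrg : ∀ g ∈ G, r g = 2 * (w g + z.re) ^ 2 + 2 * (v g + z.im) ^ 2 + β g + o g := by
    intro g hg
    rw [hr g, split, ← Finset.add_sum_erase G _ hg]
    have : ∑ x ∈ G.erase g, (N x g + N g x) = o g := by
      simp only [o]
      exact Finset.sum_congr rfl fun h _ => by ring
    rw [this, hNd g]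
    simp only [w, v, β]
    ring
  have hLe : L = 2 * q + (N i j + N j i) + b' := by
    rw [hLdef, hr i, split, hNi]
    have : ∑ x ∈ G, (N x i + N i x) = b' := by
      simp only [b']
      exact Finset.sum_congr rfl fun h _ => by ring
    rw [this]
    ring
  have hme : m = 2 * q + (N i j + N j i) + b := by
    rw [hmdef, hr j, split, hNj]
    have : ∑ x ∈ G, (N x j + N j x) = b := by
      simp only [b]
      exact Finset.sum_congr rfl fun h _ => by ring
    rw [this]
    ring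
  have hβsum : ∑ g ∈ G, β g = 2 * b + (L - m) := by
    have : ∑ g ∈ G, β g = b' + b := by
      simp only [β, b, b', ← Finset.sum_add_distrib]
      exact Finset.sum_congr rfl fun h _ => by ring
    rw [this, hLe, hme]
    ring
  have hX : ∀ a c, a ≠ c → P a c = N a c := by
    intro a c hac
    rw [hP, hN]
    simp [Matrix.one_apply_ne hac]
  have hXd : ∀ a, P a a = ((M a a).re + z.re) ^ 2 + ((M a a).im + z.im) ^ 2 := by
    intro a
    rw [hP, Complex.normSq_apply]
    simp
    ring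
  have hτe : ∀ g ∈ G, ∑ h ∈ G, P g h
      = w g ^ 2 + v g ^ 2 + ∑ h ∈ G.erase g, N g h := by
    intro g hg
    rw [← Finset.add_sum_erase G _ hg, hXd]
    have e1 : ∑ h ∈ G.erase g, P g h = ∑ h ∈ G.erase g, N g h :=
      Finset.sum_congr rfl fun h hh => hX g h (Ne.symm (Finset.mem_erase.mp hh).1)
    rw [e1]
    simp only [w, v]; ring
  have hW : ∑ g ∈ G, (2 * w g ^ 2 + 2 * v g ^ 2 + o g) = 2 * τ := by
    have e1 : τ = ∑ g ∈ G, (w g ^ 2 + v g ^ 2 + ∑ h ∈ G.erase g, N g h) :=
      Finset.sum_congr rfl hτe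
    have e2 : ∑ g ∈ G, ∑ h ∈ G.erase g, N h g = ∑ g ∈ G, ∑ h ∈ G.erase g, N g h := by
      have c1 : ∀ g ∈ G, ∑ h ∈ G.erase g, N h g = ∑ h ∈ G, N h g - N g g := by
        intro g hg
        rw [← Finset.add_sum_erase G _ hg]; ring
      have c2 : ∀ g ∈ G, ∑ h ∈ G.erase g, N g h = ∑ h ∈ G, N g h - N g g := by
        intro g hg
        rw [← Finset.add_sum_erase G _ hg]; ring
      rw [Finset.sum_congr rfl c1, Finset.sum_congr rfl c2, Finset.sum_sub_distrib,
        Finset.sum_sub_distrib, Finset.sum_comm]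
    have e3 : ∑ g ∈ G, o g = 2 * ∑ g ∈ G, ∑ h ∈ G.erase g, N g h := by
      simp only [o, Finset.sum_add_distrib]
      rw [e2]; ring
    rw [e1, Finset.sum_add_distrib, e3]
    simp only [Finset.sum_add_distrib, ← Finset.mul_sum]
    ring
  have hnorm : 2 * q + 2 * (z.re ^ 2 + z.im ^ 2) + (N i j + N j i) + b' + b + τ = 1 := by
    rw [← h3, split, split (fun b => P i b), split (fun b => P j b)]
    have e1 : ∀ g ∈ G, ∑ b, P g b = N g i + N g j + ∑ h ∈ G, P g h := by
      intro g hg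
      rw [split, hX g i (hGi g hg), hX g j (hGj g hg)]
    rw [Finset.sum_congr rfl e1]
    have e2 : ∑ a ∈ G, P i a = ∑ a ∈ G, N i a :=
      Finset.sum_congr rfl fun g hg => hX i g (hGi g hg).symm
    have e3 : ∑ a ∈ G, P j a = ∑ a ∈ G, N j a :=
      Finset.sum_congr rfl fun g hg => hX j g (hGj g hg).symm
    rw [e2, e3, hX i j hij, hX j i hij.symm, hXd, hXd, hjre, hjim, ← hxx, ← hyy, hqdef]
    simp only [b, b', τ, Finset.sum_add_distrib]
    ring
  have hLθ : L = 1 - (2 * z.re ^ 2 + 2 * z.im ^ 2 + τ + b) := by rw [hLe]; linarith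
  have hξm : 2 * q ≤ m := by
    rw [hme]
    have := hN0 i j
    have := hN0 j i
    linarith
  let E : Finset (Fin n) := G.filter fun g => 1 < L + r g
  have hEG : E ⊆ G := Finset.filter_subset _ _
  have hE : ∀ g ∈ G, g ∉ E → L + r g ≤ 1 := by
    intro g hg hgE
    by_contra hcon
    exact hgE (Finset.mem_filter.mpr ⟨hg, not_le.mp hcon⟩)
  have ht : ∀ g ∈ G, -(2 * t g) ≤ (m + r g) / 2 := by
    intro g hg
    have e1 : 2 * ((M g g).re ^ 2 + (M g g).im ^ 2) ≤ r g := by
      rw [hrg g hg]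
      have := hβ0 g
      have := ho0 g
      simp only [w, v]
      nlinarith
    simp only [t]
    rw [hqdef] at hξm
    nlinarith [sq_nonneg (x + (M g g).re), sq_nonneg (y + (M g g).im)]
  have main := main_abs' E w v β o r t (z := z.re) (y := z.im) (τ := τ) (b := b) (L := L) (m := m)
    (q := q) (fun g _ => hβ0 g) (fun g _ => ho0 g) hb0 h1 hLθ hq0 hξm
    (fun g hg => ht g (hEG hg))
    (by rw [← hβsum]; exact Finset.sum_le_sum_of_subset_of_nonneg hEG fun g _ _ => hβ0 g)
    (by rw [← hW]; exact Finset.sum_le_sum_of_subset_of_nonneg hEG fun g _ _ => by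
          have := ho0 g; positivity)
    (fun g hg => hrg g (hEG hg)) (fun g hg => h2 g (hGi g (hEG hg)))
    (fun g hg => (Finset.mem_filter.mp hg).2) hL
  refine le_trans (le_of_eq ?_) main
  -- split the double sum
  have rowi : ∑ b, phi (L + r b) * ((L + r b) / 2 - 2 * (x * (M b b).re + y * (M b b).im))
      = phi (L + L) * ((L + L) / 2 - 2 * q) + phi (L + m) * ((L + m) / 2 + 2 * q)
        + ∑ g ∈ G, phi (L + r g) * ((L + r g) / 2 - 2 * t g) := by
    rw [split, hjre, hjim, ← hxx, ← hyy, hqdef]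
    simp only [t]
    ring
  have rowj : ∑ b, phi (m + r b) * ((m + r b) / 2 - 2 * ((-x) * (M b b).re + (-y) * (M b b).im))
      = phi (m + L) * ((m + L) / 2 + 2 * q) + phi (m + m) * ((m + m) / 2 - 2 * q)
        + ∑ g ∈ G, phi (m + r g) * ((m + r g) / 2 + 2 * t g) := by
    rw [split, hjre, hjim, ← hxx, ← hyy, hqdef]
    have : ∀ g ∈ G, phi (m + r g) * ((m + r g) / 2 - 2 * ((-x) * (M g g).re + (-y) * (M g g).im))
        = phi (m + r g) * ((m + r g) / 2 + 2 * t g) := fun g _ => by simp only [t]; ring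
    rw [Finset.sum_congr rfl this]
    ring
  have rowg : ∀ g ∈ G, ∑ b, phi (r g + r b) * ((r g + r b) / 2
        - 2 * ((M g g).re * (M b b).re + (M g g).im * (M b b).im))
      = phi (L + r g) * ((L + r g) / 2 - 2 * t g)
        + phi (m + r g) * ((m + r g) / 2 + 2 * t g)
        + ∑ h ∈ G, phi (r g + r h) * ((r g + r h) / 2
          - 2 * ((w g + z.re) * (w h + z.re) + (v g + z.im) * (v h + z.im))) := by
    intro g _
    rw [split, hjre, hjim, ← hxx, ← hyy, add_comm (r g) (r i), add_comm (r g) (r j)]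
    have : ∀ h ∈ G, phi (r g + r h) * ((r g + r h) / 2
        - 2 * ((M g g).re * (M h h).re + (M g g).im * (M h h).im))
        = phi (r g + r h) * ((r g + r h) / 2
          - 2 * ((w g + z.re) * (w h + z.re) + (v g + z.im) * (v h + z.im))) :=
      fun h _ => by simp only [w, v]; ring
    rw [Finset.sum_congr rfl this]
    simp only [t]
    ring
  rw [split, Finset.sum_congr rfl rowg, hjre, hjim, ← hxx, ← hyy, rowi, rowj]
  have sub1 : ∑ g ∈ E, (2 * phi (L + r g) * ((L + r g) / 2 - 2 * t g)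
        + 2 * phi (m + r g) * ((m + r g) / 2 + 2 * t g))
      = ∑ g ∈ G, (2 * phi (L + r g) * ((L + r g) / 2 - 2 * t g)
        + 2 * phi (m + r g) * ((m + r g) / 2 + 2 * t g)) := by
    refine Finset.sum_subset hEG fun g hg hgE => ?_
    rw [phi_of_le (hE g hg hgE), phi_of_le (by linarith [hE g hg hgE])]
    ring
  have sub2 : ∑ g ∈ E, ∑ h ∈ E,
        phi (r g + r h) * ((r g + r h) / 2
          - 2 * ((w g + z.re) * (w h + z.re) + (v g + z.im) * (v h + z.im)))
      = ∑ g ∈ G, ∑ h ∈ G,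
        phi (r g + r h) * ((r g + r h) / 2
          - 2 * ((w g + z.re) * (w h + z.re) + (v g + z.im) * (v h + z.im))) := by
    have c1 : ∀ g ∈ E, ∑ h ∈ E,
        phi (r g + r h) * ((r g + r h) / 2
          - 2 * ((w g + z.re) * (w h + z.re) + (v g + z.im) * (v h + z.im)))
        = ∑ h ∈ G, phi (r g + r h) * ((r g + r h) / 2
          - 2 * ((w g + z.re) * (w h + z.re) + (v g + z.im) * (v h + z.im))) := by
      intro g _
      refine Finset.sum_subset hEG fun h hh hhE => ?_
      rw [phi_of_le (by linarith [hE h hh hhE, hle g]), zero_mul]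
    rw [Finset.sum_congr rfl c1]
    refine Finset.sum_subset hEG fun g hg hgE => ?_
    refine Finset.sum_eq_zero fun h _ => ?_
    rw [phi_of_le (by linarith [hE g hg hgE, hle h]), zero_mul]
  rw [sub1, sub2]
  simp only [Finset.sum_add_distrib, Finset.mul_sum]
  rw [add_comm m L]
  have c4 : ∀ f : Fin n → ℝ, ∑ g ∈ G, 2 * f g = 2 * ∑ g ∈ G, f g := fun f => by
    rw [Finset.mul_sum]
  have c5 : ∑ g ∈ G, 2 * phi (L + r g) * ((L + r g) / 2 - 2 * t g)
      = 2 * ∑ g ∈ G, phi (L + r g) * ((L + r g) / 2 - 2 * t g) := by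
    rw [← c4]
    exact Finset.sum_congr rfl fun g _ => by ring
  have c6 : ∑ g ∈ G, 2 * phi (m + r g) * ((m + r g) / 2 + 2 * t g)
      = 2 * ∑ g ∈ G, phi (m + r g) * ((m + r g) / 2 + 2 * t g) := by
    rw [← c4]
    exact Finset.sum_congr rfl fun g _ => by ring
  rw [c5, c6]
  ring

end Pool.Agent.H45.LW
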