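import Pool.Agent.H45.LW.Op

/-!
From the certificate cost to the complex Lu-Wenzel inequality for isotropic orthogonal families;
the proof of `Pool.Agent.H48.LW.ineq_of_cost` over the complex numbers.
-/

set_option autoImplicit false

open Matrix Finset
open Pool.Agent.H48.LW (g g_pos one_le_g)

namespace Pool.Agent.H45.LW

variable {n : ℕ}

lemma norm_K_single (M : Matrix (Fin n) (Fin n) ℂ) (a b : Fin n) :
    ‖K M (vec (Matrix.single a b 1))‖ ^ 2
      = ∑ k, Complex.normSq (M k a) + ∑ k, Complex.normSq (M b k)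
        - 2 * ((M a a).re * (M b b).re + (M a a).im * (M b b).im) := by
  rw [norm_K_sq, nsq]
  have e1 : ∀ i j, (M * Matrix.single a b (1 : ℂ)) i j = if j = b then M i a else 0 := by
    intro i j
    by_cases h : j = b
    · subst h; simp
    · simp [h, Matrix.mul_apply, Ne.symm h]
  have e2 : ∀ i j, (Matrix.single a b (1 : ℂ) * M) i j = if i = a then M b j else 0 := by
    intro i j
    by_cases h : i = a
    · subst h; simp
    · simp [h, Matrix.mul_apply, Ne.symm h]
  have e3 : ∀ i j, Complex.normSq ((M * Matrix.single a b (1 : ℂ)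
        - Matrix.single a b (1 : ℂ) * M) i j)
      = (if j = b then Complex.normSq (M i a) else 0)
        + (if i = a then Complex.normSq (M b j) else 0)
        - 2 * (if i = a then (if j = b then
          ((M i a).re * (M b j).re + (M i a).im * (M b j).im) else 0) else 0) := by
    intro i j
    rw [Matrix.sub_apply, e1, e2]
    split_ifs <;> simp [Complex.normSq_apply] <;> ring
  simp_rw [e3]
  simp only [Finset.sum_sub_distrib, Finset.sum_add_distrib, ← Finset.mul_sum]
  congr 1
  · congr 1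
    · simp
    · rw [Finset.sum_comm]
      simp
  · simp

lemma cost'_eq (M : Matrix (Fin n) (Fin n) ℂ) (r : Fin n → ℝ)
    (hM : Mᴴ * M + M * Mᴴ = diagonal (fun a => (r a : ℂ))) :
    cost' M r = ∑ a, ∑ b, (1 - 1 / max 1 (r a + r b)) *
      ((r a + r b) / 2 - 2 * ((M a a).re * (M b b).re + (M a a).im * (M b b).im)) := by
  have hr : ∀ a, r a = ∑ k, Complex.normSq (M k a) + ∑ k, Complex.normSq (M a k) := by
    intro a
    have h := congrFun (congrFun hM a) a
    rw [Matrix.diagonal_apply_eq, Matrix.add_apply, Matrix.mul_apply, Matrix.mul_apply] at h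
    have h' : ((∑ k, Complex.normSq (M k a) + ∑ k, Complex.normSq (M a k) : ℝ) : ℂ)
        = (r a : ℂ) := by
      rw [← h]
      push_cast
      congr 1
      · refine Finset.sum_congr rfl fun k _ => ?_
        rw [Matrix.conjTranspose_apply, Complex.normSq_eq_conj_mul_self]
        rfl
      · refine Finset.sum_congr rfl fun k _ => ?_
        rw [Matrix.conjTranspose_apply, ← Complex.mul_conj]
        rfl
    exact_mod_cast h'.symm
  have e : ∀ a b, g r a b = g r b a := fun a b => by
    unfold Pool.Agent.H48.LW.g; rw [add_comm]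
  have h1 : cost' M r = ∑ a, ∑ b, (1 - 1 / g r a b) *
      (∑ k, Complex.normSq (M k a) + ∑ k, Complex.normSq (M b k)
        - 2 * ((M a a).re * (M b b).re + (M a a).im * (M b b).im)) := by
    unfold cost'
    simp_rw [norm_K_single]
  have h2 : cost' M r = ∑ a, ∑ b, (1 - 1 / g r a b) *
      (∑ k, Complex.normSq (M k b) + ∑ k, Complex.normSq (M a k)
        - 2 * ((M a a).re * (M b b).re + (M a a).im * (M b b).im)) := by
    rw [h1, Finset.sum_comm]
    refine Finset.sum_congr rfl fun a _ => Finset.sum_congr rfl fun b _ => ?_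
    rw [e b a, mul_comm (M b b).re, mul_comm (M b b).im]
  have h3 : 2 * cost' M r = 2 * ∑ a, ∑ b, (1 - 1 / max 1 (r a + r b)) *
      ((r a + r b) / 2 - 2 * ((M a a).re * (M b b).re + (M a a).im * (M b b).im)) := by
    rw [two_mul]
    nth_rw 1 [h1]
    rw [h2, ← Finset.sum_add_distrib, Finset.mul_sum]
    refine Finset.sum_congr rfl fun a _ => ?_
    rw [← Finset.sum_add_distrib, Finset.mul_sum]
    refine Finset.sum_congr rfl fun b _ => ?_
    rw [hr a, hr b]
    unfold Pool.Agent.H48.LW.g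
    rw [hr a, hr b]
    ring
  linarith

/-- The inequality for isotropic orthonormal families. -/
theorem isotropic_le (M : Matrix (Fin n) (Fin n) ℂ) (r : Fin n → ℝ)
    (hM : Mᴴ * M + M * Mᴴ = diagonal (fun a => (r a : ℂ))) (hC : cost' M r ≤ 2)
    {κ : Type*} [Fintype κ] (s : κ → E n) (hs : Orthonormal ℂ s)
    (hiso : ∀ k l, inner ℂ (s k) (K M (s l)) = 0) :
    ∑ k, ‖K M (s k)‖ ^ 2 ≤ Fintype.card κ + 1 := by
  classical
  let R : Submodule ℂ (E n) := Submodule.span ℂ (Set.range fun k => K M (s k))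
  have hRmem : ∀ k, K M (s k) ∈ R := fun k => Submodule.subset_span ⟨k, rfl⟩
  have hfin : Module.finrank ℂ R ≤ Fintype.card κ := finrank_range_le_card _
  let z := stdOrthonormalBasis ℂ R
  have hperp : ∀ k, ∀ w ∈ R, inner ℂ (s k) w = 0 := by
    intro k w hw
    induction hw using Submodule.span_induction with
    | mem x hx => obtain ⟨l, rfl⟩ := hx; exact hiso k l
    | zero => simp
    | add x y _ _ hx hy => rw [inner_add_right, hx, hy, add_zero]
    | smul c x _ hx => rw [inner_smul_right, hx, mul_zero]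
  let t : κ ⊕ Fin (Module.finrank ℂ R) → E n := Sum.elim s fun l => (z l : E n)
  have ht : Orthonormal ℂ t := by
    constructor
    · rintro (k | l)
      · exact hs.1 k
      · exact z.orthonormal.1 l
    · rintro (k | l) (k' | l') hne
      · exact hs.2 fun h => hne (by rw [h])
      · exact hperp k _ (z l').2
      · change inner ℂ (z l : E n) (s k') = 0
        rw [← inner_conj_symm, hperp k' _ (z l).2, map_zero]
      · have h5 : inner ℂ (z l) (z l') = 0 :=
          z.orthonormal.2 (i := l) (j := l') fun h => hne (by rw [h])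
        change inner ℂ (z l : E n) (z l' : E n) = 0
        rw [← Submodule.coe_inner]
        exact h5
  have h1 := orthonormal_le M r hM t ht
  rw [Fintype.sum_sum_type, Fintype.card_sum, Fintype.card_fin] at h1
  have h2 : ∑ k, ‖K M (s k)‖ ^ 2 ≤ ∑ l, ‖K M (z l : E n)‖ ^ 2 := by
    calc ∑ k, ‖K M (s k)‖ ^ 2
        = ∑ k, ∑ l, ‖inner ℂ (z l : E n) (K M (s k))‖ ^ 2 := by
          refine Finset.sum_congr rfl fun k _ => ?_
          have := z.sum_sq_norm_inner_right ⟨K M (s k), hRmem k⟩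
          simp only [Submodule.coe_inner, Submodule.coe_norm] at this
          exact this.symm
      _ = ∑ l, ∑ k, ‖inner ℂ (s k) (K M (z l : E n))‖ ^ 2 := by
          rw [Finset.sum_comm]
          refine Finset.sum_congr rfl fun l _ => Finset.sum_congr rfl fun k _ => ?_
          rw [norm_inner_symm, K_skew, norm_neg, norm_inner_symm]
      _ ≤ ∑ l, ‖K M (z l : E n)‖ ^ 2 := by
          refine Finset.sum_le_sum fun l _ => ?_
          exact hs.sum_inner_products_le (x := K M (z l : E n)) (s := Finset.univ)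
  have h3 : (Module.finrank ℂ R : ℝ) ≤ Fintype.card κ := by exact_mod_cast hfin
  simp only [t, Sum.elim_inl, Sum.elim_inr] at h1
  push_cast at h1
  linarith

/-- The operator part: the Lu-Wenzel inequality follows from `cost ≤ 2`. -/
theorem ineq_of_cost (M : Matrix (Fin n) (Fin n) ℂ) (r : Fin n → ℝ)
    (hM : Mᴴ * M + M * Mᴴ = diagonal (fun a => (r a : ℂ)))
    (hC : ∑ a, ∑ b, (1 - 1 / max 1 (r a + r b)) * ((r a + r b) / 2
      - 2 * ((M a a).re * (M b b).re + (M a a).im * (M b b).im)) ≤ 2)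
    {ι : Type*} [Fintype ι] (B : ι → Matrix (Fin n) (Fin n) ℂ)
    (horth : ∀ α β, α ≠ β → (B α * (B β)ᴴ).trace = 0)
    (hiso : ∀ α β, (B α * (M * B β - B β * M)).trace = 0)
    (c : ℝ) (hc0 : 0 ≤ c) (hc : ∀ α, nsq (B α) ≤ c) :
    ∑ α, nsq (M * B α - B α * M) ≤ c + ∑ α, nsq (B α) := by
  classical
  rw [← cost'_eq M r hM] at hC
  have hb : ∀ α, nsq (B α) = ‖vec (B α)‖ ^ 2 := fun α => (norm_vec_sq _).symm
  have hk : ∀ α, nsq (M * B α - B α * M) = ‖K M (vec (B α))‖ ^ 2 :=
    fun α => (norm_K_sq _ _).symm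
  simp_rw [hb] at hc ⊢
  simp_rw [hk]
  let A : Finset ι := Finset.univ.filter fun α => ‖vec (B α)‖ ^ 2 < ‖K M (vec (B α))‖ ^ 2
  have hA : ∀ α ∈ A, 0 < ‖vec (B α)‖ := by
    intro α hα
    rw [Finset.mem_filter] at hα
    rcases (norm_nonneg (vec (B α))).eq_or_lt with h | h
    · exfalso
      have h0 : vec (B α) = 0 := norm_eq_zero.mp h.symm
      rw [h0, map_zero] at hα
      exact lt_irrefl _ hα.2
    · exact h
  let s : A → E n := fun α => ((‖vec (B α)‖ : ℂ))⁻¹ • vec (B α)
  have hs : Orthonormal ℂ s := by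
    constructor
    · intro α
      have := hA α α.2
      simp only [s, norm_smul, norm_inv, Complex.norm_real, norm_norm]
      field_simp
    · intro α β hne
      have : inner ℂ (vec (B α)) (vec (B β)) = 0 := by
        rw [inner_vec', Matrix.trace_mul_comm]
        exact horth _ _ fun h => hne (Subtype.ext h).symm
      simp only [s, inner_smul_left, inner_smul_right, this, mul_zero]
  have hsi : ∀ k l, inner ℂ (s k) (K M (s l)) = 0 := by
    intro k l
    have : inner ℂ (vec (B k)) (K M (vec (B l))) = 0 := by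
      rw [K_vec, inner_vec', ← Matrix.conjTranspose_mul, Matrix.trace_conjTranspose,
        Matrix.trace_mul_comm, hiso, star_zero]
    simp only [s, map_smulₛₗ, inner_smul_left, inner_smul_right, this, mul_zero]
  have h1 := isotropic_le M r hM hC s hs hsi
  have h2 : ∀ α : A, ‖K M (s α)‖ ^ 2 = ‖K M (vec (B α))‖ ^ 2 / ‖vec (B α)‖ ^ 2 := by
    intro α
    simp only [s, map_smulₛₗ, norm_smul, RCLike.norm_conj, norm_inv, Complex.norm_real, norm_norm,
      mul_pow, inv_pow]
    field_simp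
  have h3 : ∑ α ∈ A, (‖K M (vec (B α))‖ ^ 2 / ‖vec (B α)‖ ^ 2 - 1) ≤ 1 := by
    rw [Finset.sum_sub_distrib]
    simp only [Finset.sum_const, nsmul_eq_mul, mul_one]
    rw [← Finset.sum_coe_sort]
    simp_rw [h2] at h1
    rw [Fintype.card_coe] at h1
    linarith
  have h4 : ∑ α, (‖K M (vec (B α))‖ ^ 2 - ‖vec (B α)‖ ^ 2)
      ≤ ∑ α ∈ A, (‖K M (vec (B α))‖ ^ 2 - ‖vec (B α)‖ ^ 2) := by
    rw [← Finset.sum_filter_add_sum_filter_not Finset.univ
      (fun α => ‖vec (B α)‖ ^ 2 < ‖K M (vec (B α))‖ ^ 2)]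
    have : ∑ α ∈ Finset.univ.filter (fun α => ¬ ‖vec (B α)‖ ^ 2 < ‖K M (vec (B α))‖ ^ 2),
        (‖K M (vec (B α))‖ ^ 2 - ‖vec (B α)‖ ^ 2) ≤ 0 := by
      apply Finset.sum_nonpos
      intro α hα
      rw [Finset.mem_filter, not_lt] at hα
      linarith [hα.2]
    change ∑ α ∈ A, _ + _ ≤ _
    linarith
  have h5 : ∑ α ∈ A, (‖K M (vec (B α))‖ ^ 2 - ‖vec (B α)‖ ^ 2)
      ≤ ∑ α ∈ A, c * (‖K M (vec (B α))‖ ^ 2 / ‖vec (B α)‖ ^ 2 - 1) := by
    refine Finset.sum_le_sum fun α hα => ?_
    have hp := hA α hα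
    have hp2 : 0 < ‖vec (B α)‖ ^ 2 := by positivity
    have e : ‖K M (vec (B α))‖ ^ 2 - ‖vec (B α)‖ ^ 2
        = ‖vec (B α)‖ ^ 2 * (‖K M (vec (B α))‖ ^ 2 / ‖vec (B α)‖ ^ 2 - 1) := by
      field_simp
    rw [e]
    refine mul_le_mul_of_nonneg_right (hc α) ?_
    rw [Finset.mem_filter] at hα
    rw [sub_nonneg, one_le_div hp2]
    exact hα.2.le
  rw [← Finset.mul_sum] at h5
  have h6 : c * ∑ α ∈ A, (‖K M (vec (B α))‖ ^ 2 / ‖vec (B α)‖ ^ 2 - 1) ≤ c * 1 :=
    mul_le_mul_of_nonneg_left h3 hc0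
  rw [Finset.sum_sub_distrib] at h4
  linarith

end Pool.Agent.H45.LW
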