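import Pool.Agent.H45.LW.Scond

/-!
# Existence of the optimal shift and frame (complex Lu-Wenzel inequality)

For a complex square matrix `X` of size at least two there are a unitary `O` and a complex `z`
such that `A = Oᴴ X O - z` has diagonal `Aᴴ A + A Aᴴ`, and the two largest diagonal entries of
`Aᴴ A + A Aᴴ` sit at indices `i ≠ j` with `A i i + A j j = 0`. (Complex version of
`Pool.Agent.H42.LW.exists_shift`.)
-/

set_option autoImplicit false

namespace Pool.Agent.H45.LW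

open Matrix

section Block

variable {m : ℕ}

/-- Trace of the upper left two by two block. -/
def tr1 (M : Matrix (Fin 2 ⊕ Fin m) (Fin 2 ⊕ Fin m) ℂ) : ℂ :=
  M (Sum.inl 0) (Sum.inl 0) + M (Sum.inl 1) (Sum.inl 1)

/-- The variance type functional. -/
noncomputable def Psi (Y : Matrix (Fin 2 ⊕ Fin m) (Fin 2 ⊕ Fin m) ℂ) : ℝ :=
  (tr1 (Yᴴ * Y + Y * Yᴴ)).re - Complex.normSq (tr1 Y)

lemma tr1_add (M N : Matrix (Fin 2 ⊕ Fin m) (Fin 2 ⊕ Fin m) ℂ) :
    tr1 (M + N) = tr1 M + tr1 N := by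
  simp only [tr1, Matrix.add_apply]; ring

lemma tr1_sub (M N : Matrix (Fin 2 ⊕ Fin m) (Fin 2 ⊕ Fin m) ℂ) :
    tr1 (M - N) = tr1 M - tr1 N := by
  simp only [tr1, Matrix.sub_apply]; ring

lemma tr1_smul (c : ℂ) (M : Matrix (Fin 2 ⊕ Fin m) (Fin 2 ⊕ Fin m) ℂ) :
    tr1 (c • M) = c * tr1 M := by
  simp only [tr1, Matrix.smul_apply, smul_eq_mul]; ring

lemma tr1_one : tr1 (1 : Matrix (Fin 2 ⊕ Fin m) (Fin 2 ⊕ Fin m) ℂ) = 2 := by
  simp only [tr1, Matrix.one_apply_eq]; norm_num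

lemma tr1_conjTranspose (M : Matrix (Fin 2 ⊕ Fin m) (Fin 2 ⊕ Fin m) ℂ) :
    tr1 Mᴴ = (starRingEnd ℂ) (tr1 M) := by
  simp only [tr1, Matrix.conjTranspose_apply, map_add]
  rfl

lemma Psi_shift (A : Matrix (Fin 2 ⊕ Fin m) (Fin 2 ⊕ Fin m) ℂ) (z : ℂ) :
    Psi (A - z • (1 : Matrix (Fin 2 ⊕ Fin m) (Fin 2 ⊕ Fin m) ℂ)) = Psi A := by
  have h : (A - z • (1 : Matrix (Fin 2 ⊕ Fin m) (Fin 2 ⊕ Fin m) ℂ))ᴴ * (A - z • 1)
      + (A - z • 1) * (A - z • (1 : Matrix (Fin 2 ⊕ Fin m) (Fin 2 ⊕ Fin m) ℂ))ᴴ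
      = (Aᴴ * A + A * Aᴴ) - (2 * star z) • A - (2 * z) • Aᴴ + (2 * (z * star z)) • 1 := by
    rw [conjTranspose_sub, conjTranspose_smul, conjTranspose_one]
    simp only [sub_mul, mul_sub, smul_mul_assoc, mul_smul_comm, one_mul, mul_one, smul_sub,
      smul_smul]
    module
  simp only [Psi, h, tr1_add, tr1_sub, tr1_smul, tr1_one, tr1_conjTranspose]
  generalize tr1 (Aᴴ * A) = P
  generalize tr1 (A * Aᴴ) = P'
  generalize tr1 A = t
  simp [Complex.normSq_apply]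
  ring

lemma exists_max (X : Matrix (Fin 2 ⊕ Fin m) (Fin 2 ⊕ Fin m) ℂ) :
    ∃ O : Matrix (Fin 2 ⊕ Fin m) (Fin 2 ⊕ Fin m) ℂ, Oᴴ * O = 1 ∧
      ∀ G : Matrix (Fin 2 ⊕ Fin m) (Fin 2 ⊕ Fin m) ℂ, Gᴴ * G = 1 →
        Psi (Gᴴ * X * G) ≤ Psi (Oᴴ * X * O) := by
  set K : Set (Matrix (Fin 2 ⊕ Fin m) (Fin 2 ⊕ Fin m) ℂ) := {O | Oᴴ * O = 1} with hKdef
  have hcl : IsClosed K := isClosed_eq (by fun_prop) continuous_const
  have hsub : K ⊆ Set.pi Set.univ fun _ => Set.pi Set.univ fun _ =>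
      Metric.closedBall (0 : ℂ) 1 := by
    intro O hO i _ j _
    have h1 : (Oᴴ * O) j j = 1 := by
      rw [show Oᴴ * O = 1 from hO, Matrix.one_apply_eq]
    rw [Matrix.mul_apply] at h1
    simp only [Matrix.conjTranspose_apply] at h1
    have h1' : ∑ x, Complex.normSq (O x j) = 1 := by
      have : ((∑ x, Complex.normSq (O x j) : ℝ) : ℂ) = 1 := by
        rw [← h1]
        push_cast
        refine Finset.sum_congr rfl fun x _ => ?_
        rw [Complex.normSq_eq_conj_mul_self]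
        rfl
      exact_mod_cast this
    have h2 : Complex.normSq (O i j) ≤ ∑ x, Complex.normSq (O x j) :=
      Finset.single_le_sum (f := fun x => Complex.normSq (O x j))
        (fun x _ => Complex.normSq_nonneg _) (Finset.mem_univ i)
    rw [h1', Complex.normSq_eq_norm_sq] at h2
    rw [mem_closedBall_zero_iff]
    nlinarith [norm_nonneg (O i j)]
  have hK : IsCompact K :=
    IsCompact.of_isClosed_subset
      (isCompact_univ_pi fun _ => isCompact_univ_pi fun _ => isCompact_closedBall _ _) hcl hsub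
  obtain ⟨O, hO, hmax⟩ := hK.exists_isMaxOn (f := fun G => Psi (Gᴴ * X * G))
    ⟨1, by simp [K]⟩ (Continuous.continuousOn (by
      unfold Psi tr1
      refine Continuous.sub (Complex.continuous_re.comp (by fun_prop))
        (Complex.continuous_normSq.comp (by fun_prop))))
  exact ⟨O, hO, fun G hG => hmax hG⟩

/-- Conjugation by a block unitary matrix does not change `tr1`. -/
lemma tr1_block (V1 : Matrix (Fin 2) (Fin 2) ℂ) (V2 : Matrix (Fin m) (Fin m) ℂ)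
    (h1 : V1ᴴ * V1 = 1) (M : Matrix (Fin 2 ⊕ Fin m) (Fin 2 ⊕ Fin m) ℂ) :
    tr1 ((fromBlocks V1 0 0 V2)ᴴ * M * (fromBlocks V1 0 0 V2)) = tr1 M := by
  have hM := fromBlocks_toBlocks M
  have key : (fromBlocks V1 0 0 V2)ᴴ * M * (fromBlocks V1 0 0 V2)
      = fromBlocks (V1ᴴ * M.toBlocks₁₁ * V1) (V1ᴴ * M.toBlocks₁₂ * V2)
        (V2ᴴ * M.toBlocks₂₁ * V1) (V2ᴴ * M.toBlocks₂₂ * V2) := by
    conv_lhs => rw [← hM]
    rw [fromBlocks_conjTranspose, fromBlocks_multiply, fromBlocks_multiply]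
    simp
  have ht : ∀ N : Matrix (Fin 2 ⊕ Fin m) (Fin 2 ⊕ Fin m) ℂ, tr1 N = trace N.toBlocks₁₁ := by
    intro N
    simp [tr1, trace, toBlocks₁₁, Fin.sum_univ_two]
  rw [key, ht, ht, toBlocks_fromBlocks₁₁, Matrix.mul_assoc, trace_mul_comm, Matrix.mul_assoc,
    mul_eq_one_comm.1 h1, Matrix.mul_one]

/-- Householder reflection. -/
def hou {k : Type*} [DecidableEq k] (w : k → ℂ) : Matrix k k ℂ :=
  1 - (2 : ℂ) • vecMulVec w (star w)

lemma hou_conjTranspose {k : Type*} [DecidableEq k] (w : k → ℂ) : (hou w)ᴴ = hou w := by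
  have h1 : (vecMulVec w (star w))ᴴ = vecMulVec w (star w) := by
    ext a b; simp [vecMulVec_apply, mul_comm]
  rw [hou, conjTranspose_sub, conjTranspose_smul, conjTranspose_one, h1]
  simp

lemma hou_orth {k : Type*} [Fintype k] [DecidableEq k] (w : k → ℂ) (hw : star w ⬝ᵥ w = 1) :
    (hou w)ᴴ * hou w = 1 := by
  have h2 : vecMulVec w (star w) * vecMulVec w (star w) = vecMulVec w (star w) := by
    rw [vecMulVec_mul_vecMulVec, hw]
    simp
  rw [hou_conjTranspose, hou]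
  simp only [sub_mul, mul_sub, smul_mul_assoc, mul_smul_comm, one_mul, mul_one, h2]
  module

lemma hou_conj {k : Type*} [Fintype k] [DecidableEq k] (w : k → ℂ)
    (M : Matrix k k ℂ) (a : k) :
    ((hou w)ᴴ * M * hou w) a a
      = M a a - 2 * w a * (star w ᵥ* M) a - 2 * (M *ᵥ w) a * star (w a)
        + 4 * (star w ⬝ᵥ (M *ᵥ w)) * (w a * star (w a)) := by
  have h3 : vecMulVec w (star w) * M = vecMulVec w (star w ᵥ* M) := by
    rw [vecMulVec_mul]
  have h4 : M * vecMulVec w (star w) = vecMulVec (M *ᵥ w) (star w) := by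
    rw [mul_vecMulVec]
  have h5 : vecMulVec w (star w) * M * vecMulVec w (star w)
      = (star w ⬝ᵥ (M *ᵥ w)) • vecMulVec w (star w) := by
    rw [Matrix.mul_assoc, h4, vecMulVec_mul_vecMulVec]
    ext a b
    simp [vecMulVec_apply]
    ring
  have h6 : (hou w)ᴴ * M * hou w
      = M - (2 : ℂ) • (vecMulVec w (star w) * M) - (2 : ℂ) • (M * vecMulVec w (star w))
        + (4 : ℂ) • (vecMulVec w (star w) * M * vecMulVec w (star w)) := by
    rw [hou_conjTranspose, hou]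
    simp only [sub_mul, mul_sub, smul_mul_assoc, mul_smul_comm, one_mul, mul_one]
    module
  rw [h6, h5, h3, h4]
  simp only [Matrix.add_apply, Matrix.sub_apply, Matrix.smul_apply, smul_eq_mul, vecMulVec_apply,
    Pi.star_apply]
  ring

/-- The vector in the plane of `inl k` and `inr g`. -/
def pv (k : Fin 2) (g : Fin m) (α β : ℂ) : Fin 2 ⊕ Fin m → ℂ :=
  α • Pi.single (Sum.inl k) 1 + β • Pi.single (Sum.inr g) 1

lemma pv_dot (k : Fin 2) (g : Fin m) (α β : ℂ) (v : Fin 2 ⊕ Fin m → ℂ) :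
    pv k g α β ⬝ᵥ v = α * v (Sum.inl k) + β * v (Sum.inr g) := by
  simp [pv, add_dotProduct, smul_dotProduct]

lemma star_pv (k : Fin 2) (g : Fin m) (α β : ℂ) :
    star (pv k g α β) = pv k g (star α) (star β) := by
  have h1 : ∀ x y : Fin 2 ⊕ Fin m,
      star ((Pi.single x 1 : Fin 2 ⊕ Fin m → ℂ) y) = (Pi.single x 1 : Fin 2 ⊕ Fin m → ℂ) y := by
    intro x y
    rw [Pi.single_apply]
    split_ifs
    · exact star_one ℂ
    · exact star_zero ℂ
  ext x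
  simp only [pv, Pi.star_apply, Pi.add_apply, Pi.smul_apply, smul_eq_mul, star_add, star_mul', h1]

lemma tr1_hou (k : Fin 2) (g : Fin m) (α : ℝ) (β : ℂ) (hab : α ^ 2 + Complex.normSq β = 1)
    (M : Matrix (Fin 2 ⊕ Fin m) (Fin 2 ⊕ Fin m) ℂ) :
    tr1 ((hou (pv k g α β))ᴴ * M * hou (pv k g α β)) = tr1 M
      + 4 * (α : ℂ) ^ 2 * (β * star β) * (M (Sum.inr g) (Sum.inr g) - M (Sum.inl k) (Sum.inl k))
      + (1 - 2 * (α : ℂ) ^ 2)
        * ((-2 * (α : ℂ) * β) * M (Sum.inl k) (Sum.inr g)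
          + star (-2 * (α : ℂ) * β) * M (Sum.inr g) (Sum.inl k)) := by
  have hα : star (α : ℂ) = (α : ℂ) := Complex.conj_ofReal α
  have hvM : ∀ a, (star (pv k g (α : ℂ) β) ᵥ* M) a
      = (α : ℂ) * M (Sum.inl k) a + star β * M (Sum.inr g) a := by
    intro a
    rw [show (star (pv k g (α : ℂ) β) ᵥ* M) a = star (pv k g (α : ℂ) β) ⬝ᵥ (fun b => M b a) from rfl,
      star_pv, pv_dot, hα]
  have hMv : ∀ a, (M *ᵥ pv k g (α : ℂ) β) a
      = (α : ℂ) * M a (Sum.inl k) + β * M a (Sum.inr g) := by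
    intro a
    rw [show (M *ᵥ pv k g (α : ℂ) β) a = (fun b => M a b) ⬝ᵥ pv k g (α : ℂ) β from rfl,
      dotProduct_comm, pv_dot]
  have hb : (α : ℂ) ^ 2 + β * star β = 1 := by
    have h : ((α ^ 2 + Complex.normSq β : ℝ) : ℂ) = 1 := by rw [hab]; simp
    rw [← h]
    push_cast
    rw [← Complex.mul_conj]
    rfl
  have hl : ∀ k' : Fin 2, pv k g (α : ℂ) β (Sum.inl k') = if k' = k then (α : ℂ) else 0 := by
    intro k'
    simp [pv, Pi.single_apply]
  have hdot : ∀ v : Fin 2 ⊕ Fin m → ℂ, star (pv k g (α : ℂ) β) ⬝ᵥ v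
      = (α : ℂ) * v (Sum.inl k) + star β * v (Sum.inr g) := by
    intro v
    rw [star_pv, pv_dot, hα]
  have hs2 : star (-2 * (α : ℂ) * β) = -2 * (α : ℂ) * star β := by
    rw [star_mul', star_mul', hα]
    simp
  rw [hs2]
  simp only [tr1, hou_conj, hvM, hMv, hdot, hl]
  fin_cases k
  · simp [hα]
    simp only [starRingEnd_apply]
    linear_combination (4 * (α : ℂ) ^ 2 * M (Sum.inl 0) (Sum.inl 0)) * hb
  · simp [hα]
    simp only [starRingEnd_apply]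
    linear_combination (4 * (α : ℂ) ^ 2 * M (Sum.inl 1) (Sum.inl 1)) * hb

lemma conj_sum {k : Type*} [Fintype k] [DecidableEq k] (G A : Matrix k k ℂ) (hG : Gᴴ * G = 1) :
    (Gᴴ * A * G)ᴴ * (Gᴴ * A * G) + (Gᴴ * A * G) * (Gᴴ * A * G)ᴴ
      = Gᴴ * (Aᴴ * A + A * Aᴴ) * G := by
  have hGG : G * Gᴴ = 1 := mul_eq_one_comm.1 hG
  have h1 : (Gᴴ * A * G)ᴴ = Gᴴ * Aᴴ * G := by
    simp only [conjTranspose_mul, conjTranspose_conjTranspose, Matrix.mul_assoc]
  have h2 : ∀ P Q : Matrix k k ℂ, (Gᴴ * P * G) * (Gᴴ * Q * G) = Gᴴ * (P * Q) * G := by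
    intro P Q
    calc (Gᴴ * P * G) * (Gᴴ * Q * G) = Gᴴ * P * (G * Gᴴ) * Q * G := by
          simp only [Matrix.mul_assoc]
      _ = Gᴴ * (P * Q) * G := by rw [hGG, Matrix.mul_one]; simp only [Matrix.mul_assoc]
  rw [h1, h2, h2, ← Matrix.add_mul, ← Matrix.mul_add]

lemma conj_shift {k : Type*} [Fintype k] [DecidableEq k] (G A : Matrix k k ℂ) (hG : Gᴴ * G = 1)
    (z : ℂ) : Gᴴ * (A - z • (1 : Matrix k k ℂ)) * G = Gᴴ * A * G - z • (1 : Matrix k k ℂ) := by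
  rw [Matrix.mul_sub, Matrix.sub_mul, Matrix.mul_smul, Matrix.mul_one, Matrix.smul_mul, hG]

theorem exists_shift_sum (X : Matrix (Fin 2 ⊕ Fin m) (Fin 2 ⊕ Fin m) ℂ) :
    ∃ (O : Matrix (Fin 2 ⊕ Fin m) (Fin 2 ⊕ Fin m) ℂ) (z : ℂ) (r : Fin 2 ⊕ Fin m → ℝ)
      (i j : Fin 2 ⊕ Fin m),
      Oᴴ * O = 1 ∧ i ≠ j ∧
      (Oᴴ * X * O - z • (1 : Matrix (Fin 2 ⊕ Fin m) (Fin 2 ⊕ Fin m) ℂ))ᴴ
          * (Oᴴ * X * O - z • (1 : Matrix (Fin 2 ⊕ Fin m) (Fin 2 ⊕ Fin m) ℂ))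
        + (Oᴴ * X * O - z • (1 : Matrix (Fin 2 ⊕ Fin m) (Fin 2 ⊕ Fin m) ℂ))
          * (Oᴴ * X * O - z • (1 : Matrix (Fin 2 ⊕ Fin m) (Fin 2 ⊕ Fin m) ℂ))ᴴ
        = diagonal (fun a => (r a : ℂ)) ∧
      (Oᴴ * X * O - z • (1 : Matrix (Fin 2 ⊕ Fin m) (Fin 2 ⊕ Fin m) ℂ)) i i
        + (Oᴴ * X * O - z • (1 : Matrix (Fin 2 ⊕ Fin m) (Fin 2 ⊕ Fin m) ℂ)) j j = 0 ∧
      r j ≤ r i ∧ ∀ a, a ≠ i → r a ≤ r j := by
  obtain ⟨O, hO, hmax⟩ := exists_max X
  set Y := Oᴴ * X * O with hY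
  set z : ℂ := tr1 Y / 2 with hz
  set A := Y - z • (1 : Matrix (Fin 2 ⊕ Fin m) (Fin 2 ⊕ Fin m) ℂ) with hA
  set R := Aᴴ * A + A * Aᴴ with hR
  have hA0 : tr1 A = 0 := by
    rw [hA, tr1_sub, tr1_smul, tr1_one, hz]; ring
  have hstar : ∀ G : Matrix (Fin 2 ⊕ Fin m) (Fin 2 ⊕ Fin m) ℂ, Gᴴ * G = 1 →
      (tr1 (Gᴴ * R * G)).re - Complex.normSq (tr1 (Gᴴ * A * G)) ≤ (tr1 R).re := by
    intro G hG
    have hOG : (O * G)ᴴ * (O * G) = 1 := by
      rw [conjTranspose_mul, Matrix.mul_assoc, ← Matrix.mul_assoc Oᴴ, hO, Matrix.one_mul, hG]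
    have h1 := hmax (O * G) hOG
    have h2 : (O * G)ᴴ * X * (O * G) = Gᴴ * Y * G := by
      rw [hY, conjTranspose_mul]; simp only [Matrix.mul_assoc]
    rw [h2, ← Psi_shift (Gᴴ * Y * G) z, ← Psi_shift Y z, ← conj_shift G Y hG z, ← hA] at h1
    have h3 : Psi (Gᴴ * A * G) = (tr1 (Gᴴ * R * G)).re - Complex.normSq (tr1 (Gᴴ * A * G)) := by
      rw [Psi, conj_sum G A hG]
    have h4 : Psi A = (tr1 R).re := by rw [Psi, hA0, ← hR, map_zero]; ring
    rw [h3, h4] at h1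
    exact h1
  have hRt : Rᴴ = R := by
    rw [hR, conjTranspose_add, conjTranspose_mul, conjTranspose_mul, conjTranspose_conjTranspose]
  have hR11 : (R.toBlocks₁₁)ᴴ = R.toBlocks₁₁ := by
    ext a b; exact congrFun (congrFun hRt (Sum.inl a)) (Sum.inl b)
  have hR22 : (R.toBlocks₂₂)ᴴ = R.toBlocks₂₂ := by
    ext a b; exact congrFun (congrFun hRt (Sum.inr a)) (Sum.inr b)
  obtain ⟨V1, d1, hV1, hd1⟩ := exists_diag _ hR11
  obtain ⟨V2, d2, hV2, hd2⟩ := exists_diag _ hR22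
  set V := fromBlocks V1 0 0 V2 with hVdef
  have hV : Vᴴ * V = 1 := by
    rw [hVdef, fromBlocks_conjTranspose, fromBlocks_multiply]
    simp [hV1, hV2, fromBlocks_one]
  set A' := Vᴴ * A * V with hA'
  set R' := Vᴴ * R * V with hR'
  have hAR : A'ᴴ * A' + A' * A'ᴴ = R' := by
    rw [hA', hR', hR]; exact conj_sum V A hV
  have hA'0 : tr1 A' = 0 := by
    rw [hA', hVdef, tr1_block V1 V2 hV1, hA0]
  have hR'1 : tr1 R' = tr1 R := by
    rw [hR', hVdef, tr1_block V1 V2 hV1]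
  have hR't : R'ᴴ = R' := by
    rw [hR']; simp only [conjTranspose_mul, conjTranspose_conjTranspose, hRt, Matrix.mul_assoc]
  have hstar' : ∀ G : Matrix (Fin 2 ⊕ Fin m) (Fin 2 ⊕ Fin m) ℂ, Gᴴ * G = 1 →
      (tr1 (Gᴴ * R' * G)).re - Complex.normSq (tr1 (Gᴴ * A' * G)) ≤ (tr1 R').re := by
    intro G hG
    have hVG : (V * G)ᴴ * (V * G) = 1 := by
      rw [conjTranspose_mul, Matrix.mul_assoc, ← Matrix.mul_assoc Vᴴ, hV, Matrix.one_mul, hG]
    have h1 := hstar (V * G) hVG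
    have h2 : ∀ M : Matrix (Fin 2 ⊕ Fin m) (Fin 2 ⊕ Fin m) ℂ,
        (V * G)ᴴ * M * (V * G) = Gᴴ * (Vᴴ * M * V) * G := by
      intro M; rw [conjTranspose_mul]; simp only [Matrix.mul_assoc]
    rw [h2, h2, ← hR', ← hA', ← hR'1] at h1
    exact h1
  have hblock : R' = fromBlocks (V1ᴴ * R.toBlocks₁₁ * V1) (V1ᴴ * R.toBlocks₁₂ * V2)
        (V2ᴴ * R.toBlocks₂₁ * V1) (V2ᴴ * R.toBlocks₂₂ * V2) := by
    rw [hR', hVdef]
    conv_lhs => rw [← fromBlocks_toBlocks R]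
    rw [fromBlocks_conjTranspose, fromBlocks_multiply, fromBlocks_multiply]
    simp
  rw [hd1, hd2] at hblock
  have hRk : ∀ k : Fin 2, R' (Sum.inl k) (Sum.inl k) = (d1 k : ℂ) := by
    intro k
    rw [hblock, fromBlocks_apply₁₁, diagonal_apply_eq]
  have hRg : ∀ g : Fin m, R' (Sum.inr g) (Sum.inr g) = (d2 g : ℂ) := by
    intro g
    rw [hblock, fromBlocks_apply₂₂, diagonal_apply_eq]
  have hcond : ∀ (k : Fin 2) (g : Fin m), R' (Sum.inl k) (Sum.inr g) = 0 ∧ d2 g - d1 k ≤ 0 := by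
    intro k g
    apply scalar_cond _ _ (A' (Sum.inr g) (Sum.inr g) - A' (Sum.inl k) (Sum.inl k))
      (A' (Sum.inl k) (Sum.inr g)) (A' (Sum.inr g) (Sum.inl k))
    intro c σ hcs
    obtain ⟨α, β, hab, hs, hc⟩ := exists_half c σ hcs
    have hw : star (pv k g (α : ℂ) β) ⬝ᵥ pv k g (α : ℂ) β = 1 := by
      rw [star_pv, pv_dot]
      simp only [pv, Pi.add_apply, Pi.smul_apply, smul_eq_mul, Pi.single_eq_same]
      rw [Pi.single_eq_of_ne (by simp), Pi.single_eq_of_ne (by simp)]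
      have h : ((α ^ 2 + Complex.normSq β : ℝ) : ℂ) = 1 := by rw [hab]; simp
      refine Eq.trans ?_ h
      push_cast
      rw [Complex.normSq_eq_conj_mul_self, show star (α : ℂ) = (α : ℂ) from Complex.conj_ofReal α]
      rw [starRingEnd_apply]
      ring
    have h1 := hstar' _ (hou_orth _ hw)
    rw [tr1_hou k g α β hab, tr1_hou k g α β hab, hA'0, hRk, hRg, hs] at h1
    have hsym : R' (Sum.inr g) (Sum.inl k) = star (R' (Sum.inl k) (Sum.inr g)) := by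
      have := congrFun (congrFun hR't (Sum.inr g)) (Sum.inl k)
      rw [← this, conjTranspose_apply]
    have hcC : (1 - 2 * (α : ℂ) ^ 2) = (c : ℂ) := by rw [← hc]; push_cast; ring
    have hσn : 4 * (α : ℂ) ^ 2 * (β * star β) = (Complex.normSq σ : ℂ) := by
      rw [← hs, Complex.normSq_mul, Complex.normSq_mul, Complex.normSq_ofReal]
      push_cast
      have : (Complex.normSq β : ℂ) = β * star β := (Complex.mul_conj β).symm
      rw [this]
      have h2 : Complex.normSq (-2 : ℂ) = 4 := by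
        rw [Complex.normSq_neg]
        norm_num [Complex.normSq_apply]
      rw [h2]
      push_cast
      ring
    rw [hcC, hσn, hsym, zero_add] at h1
    have h5 : ((Complex.normSq σ : ℂ) * ((d2 g : ℂ) - (d1 k : ℂ))
        + (c : ℂ) * (σ * R' (Sum.inl k) (Sum.inr g) + star σ * star (R' (Sum.inl k) (Sum.inr g)))).re
        = Complex.normSq σ * (d2 g - d1 k) + 2 * c * (σ * R' (Sum.inl k) (Sum.inr g)).re := by
      generalize R' (Sum.inl k) (Sum.inr g) = p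
      simp
      ring
    rw [add_assoc, Complex.add_re (tr1 R'), h5] at h1
    rw [starRingEnd_apply]
    linarith
  have hdiag : R' = diagonal (fun a => ((Sum.elim d1 d2 a : ℝ) : ℂ)) := by
    ext a b
    rcases a with a | a <;> rcases b with b | b
    · rw [hblock, fromBlocks_apply₁₁, diagonal_apply, diagonal_apply]
      simp
    · rw [(hcond a b).1, diagonal_apply_ne _ (by simp)]
    · have h1 := congrFun (congrFun hR't (Sum.inr a)) (Sum.inl b)
      rw [conjTranspose_apply, (hcond b a).1, star_zero] at h1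
      rw [← h1, diagonal_apply_ne _ (by simp)]
    · rw [hblock, fromBlocks_apply₂₂, diagonal_apply, diagonal_apply]
      simp
  have hOV : (O * V)ᴴ * (O * V) = 1 := by
    rw [conjTranspose_mul, Matrix.mul_assoc, ← Matrix.mul_assoc Oᴴ, hO, Matrix.one_mul, hV]
  have hfin : (O * V)ᴴ * X * (O * V) - z • (1 : Matrix (Fin 2 ⊕ Fin m) (Fin 2 ⊕ Fin m) ℂ) = A' := by
    rw [hA', hA, conj_shift V Y hV, hY, conjTranspose_mul]
    simp only [Matrix.mul_assoc]
  have hle : ∀ (k : Fin 2) (g : Fin m), d2 g ≤ d1 k := by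
    intro k g
    linarith [(hcond k g).2]
  rcases le_total (d1 1) (d1 0) with h | h
  · refine ⟨O * V, z, Sum.elim d1 d2, Sum.inl 0, Sum.inl 1, hOV, by simp, ?_, ?_, h, ?_⟩
    · rw [hfin, hAR, hdiag]
    · rw [hfin]; exact hA'0
    · intro a ha
      rcases a with a | a
      · fin_cases a
        · exact absurd rfl ha
        · exact le_refl _
      · exact hle 1 a
  · refine ⟨O * V, z, Sum.elim d1 d2, Sum.inl 1, Sum.inl 0, hOV, by simp, ?_, ?_, h, ?_⟩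
    · rw [hfin, hAR, hdiag]
    · rw [hfin, add_comm]; exact hA'0
    · intro a ha
      rcases a with a | a
      · fin_cases a
        · exact le_refl _
        · exact absurd rfl ha
      · exact hle 0 a

end Block

/-- **Optimal shift and frame**, complex matrices. -/
theorem exists_shift {n : ℕ} (hn : 2 ≤ n) (X : Matrix (Fin n) (Fin n) ℂ) :
    ∃ (O : Matrix (Fin n) (Fin n) ℂ) (z : ℂ) (r : Fin n → ℝ) (i j : Fin n),
      Oᴴ * O = 1 ∧ i ≠ j ∧
      (Oᴴ * X * O - z • (1 : Matrix (Fin n) (Fin n) ℂ))ᴴ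
          * (Oᴴ * X * O - z • (1 : Matrix (Fin n) (Fin n) ℂ))
        + (Oᴴ * X * O - z • (1 : Matrix (Fin n) (Fin n) ℂ))
          * (Oᴴ * X * O - z • (1 : Matrix (Fin n) (Fin n) ℂ))ᴴ
        = Matrix.diagonal (fun a => (r a : ℂ)) ∧
      (Oᴴ * X * O - z • (1 : Matrix (Fin n) (Fin n) ℂ)) i i
        + (Oᴴ * X * O - z • (1 : Matrix (Fin n) (Fin n) ℂ)) j j = 0 ∧
      r j ≤ r i ∧ ∀ a, a ≠ i → r a ≤ r j := by
  obtain ⟨m, rfl⟩ := Nat.exists_eq_add_of_le hn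
  set e : Fin 2 ⊕ Fin m ≃ Fin (2 + m) := finSumFinEquiv with he
  obtain ⟨O, z, r, i, j, hO, hij, hd, h0, h1, h2⟩ := exists_shift_sum (X.submatrix e e)
  set B := Oᴴ * X.submatrix e e * O - z • (1 : Matrix (Fin 2 ⊕ Fin m) (Fin 2 ⊕ Fin m) ℂ) with hB
  have hconj : (O.submatrix e.symm e.symm)ᴴ * X * (O.submatrix e.symm e.symm)
      - z • (1 : Matrix (Fin (2 + m)) (Fin (2 + m)) ℂ) = B.submatrix e.symm e.symm := by
    have hX : X = (X.submatrix e e).submatrix e.symm e.symm := by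
      ext a b; simp
    conv_lhs => rw [hX]
    rw [conjTranspose_submatrix, submatrix_mul_equiv, submatrix_mul_equiv, hB]
    ext a b
    simp [Matrix.one_apply]
  refine ⟨O.submatrix e.symm e.symm, z, r ∘ e.symm, e i, e j, ?_, ?_, ?_, ?_, ?_, ?_⟩
  · rw [conjTranspose_submatrix, submatrix_mul_equiv, hO, submatrix_one_equiv]
  · exact fun h => hij (e.injective h)
  · rw [hconj, conjTranspose_submatrix, submatrix_mul_equiv, submatrix_mul_equiv]
    have h3 : (Bᴴ * B).submatrix e.symm e.symm + (B * Bᴴ).submatrix e.symm e.symm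
        = (Bᴴ * B + B * Bᴴ).submatrix e.symm e.symm := rfl
    rw [h3, hd, submatrix_diagonal_equiv]
    rfl
  · rw [hconj]; simpa using h0
  · simpa using h1
  · intro a ha
    have := h2 (e.symm a) (fun h => ha (by rw [← h]; simp))
    simpa using this

end Pool.Agent.H45.LW
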