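import Pool.Agent.H45.LW.Iso
import Pool.Agent.H45.LW.Cost
import Pool.Agent.H45.LW.Shift

/-!
Assembly of the proof of the Lu-Wenzel inequality for complex matrices (MP_642cb2_an).
-/

set_option autoImplicit false

open Matrix Finset

namespace Pool.Agent.H45.LW

variable {n : ℕ}

lemma nsq_eq (A : Matrix (Fin n) (Fin n) ℂ) : nsq A = ((A * Aᴴ).trace).re := by
  rw [Matrix.trace_mul_comm, ← nsq_trace, Complex.ofReal_re]

lemma conj_nsq (O A : Matrix (Fin n) (Fin n) ℂ) (hO : Oᴴ * O = 1) :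
    nsq (Oᴴ * A * O) = nsq A := by
  have hO' : O * Oᴴ = 1 := mul_eq_one_comm.mp hO
  have h : ((nsq (Oᴴ * A * O) : ℝ) : ℂ) = ((nsq A : ℝ) : ℂ) := by
    rw [nsq_trace, nsq_trace]
    have : (Oᴴ * A * O)ᴴ * (Oᴴ * A * O) = Oᴴ * (Aᴴ * A * O) := by
      simp only [Matrix.conjTranspose_mul, Matrix.conjTranspose_conjTranspose, Matrix.mul_assoc]
      rw [← Matrix.mul_assoc O Oᴴ, hO', Matrix.one_mul]
    rw [this, Matrix.trace_mul_comm, Matrix.mul_assoc (Aᴴ * A), hO', Matrix.mul_one]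
  exact_mod_cast h

/-- The inequality for a normalised matrix. -/
theorem unit_ineq (hn : 2 ≤ n) (X : Matrix (Fin n) (Fin n) ℂ)
    (hX : nsq X = 1) {ι : Type*} [Fintype ι]
    (C : ι → Matrix (Fin n) (Fin n) ℂ)
    (h1 : ∀ α β, α ≠ β → (C α * (C β)ᴴ).trace = 0)
    (h2 : ∀ α β, (C α * (X * C β - C β * X)).trace = 0)
    (c : ℝ) (hc0 : 0 ≤ c) (hc : ∀ α, nsq (C α) ≤ c) :
    ∑ α, nsq (X * C α - C α * X) ≤ c + ∑ α, nsq (C α) := by
  obtain ⟨O, z, r, i, j, hO, hij, hM, hx, hji, hr⟩ := exists_shift hn X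
  have hO' : O * Oᴴ = 1 := mul_eq_one_comm.mp hO
  set M := Oᴴ * X * O - z • (1 : Matrix (Fin n) (Fin n) ℂ) with hMdef
  have h3 : nsq (M + z • (1 : Matrix (Fin n) (Fin n) ℂ)) = 1 := by
    rw [hMdef, sub_add_cancel, conj_nsq O X hO, hX]
  have hcost := cost_le_two M z r i j hij hM hx hji hr h3
  have hconj : ∀ A B : Matrix (Fin n) (Fin n) ℂ,
      (Oᴴ * A * O) * (Oᴴ * B * O) = Oᴴ * (A * B) * O := by
    intro A B
    simp only [Matrix.mul_assoc]
    rw [← Matrix.mul_assoc O Oᴴ, hO', Matrix.one_mul]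
  have hcomm : ∀ A : Matrix (Fin n) (Fin n) ℂ,
      M * (Oᴴ * A * O) - (Oᴴ * A * O) * M = Oᴴ * (X * A - A * X) * O := by
    intro A
    rw [hMdef, Matrix.sub_mul, Matrix.mul_sub, hconj, hconj, Matrix.smul_mul, Matrix.mul_smul,
      Matrix.one_mul, Matrix.mul_one, Matrix.mul_sub, Matrix.sub_mul]
    abel
  have key := ineq_of_cost M r hM hcost (fun α => Oᴴ * C α * O)
    (fun α β hab => by
      rw [show (Oᴴ * C β * O)ᴴ = Oᴴ * (C β)ᴴ * O by
        simp only [Matrix.conjTranspose_mul, Matrix.conjTranspose_conjTranspose,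
          Matrix.mul_assoc],
        hconj, Matrix.trace_mul_comm, ← Matrix.mul_assoc, hO', Matrix.one_mul]
      exact h1 α β hab)
    (fun α β => by
      rw [hcomm, hconj, Matrix.trace_mul_comm, ← Matrix.mul_assoc, hO', Matrix.one_mul]
      exact h2 α β)
    c hc0 (fun α => by rw [conj_nsq O _ hO]; exact hc α)
  simp_rw [hcomm, conj_nsq O _ hO] at key
  exact key

/-- The complex Lu-Wenzel inequality, for a family indexed by a finite type. -/
theorem lu_wenzel (hn : 2 ≤ n) (B : Matrix (Fin n) (Fin n) ℂ) {ι : Type*} [Fintype ι]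
    (C : ι → Matrix (Fin n) (Fin n) ℂ)
    (h1 : ∀ α β, α ≠ β → (C α * (C β)ᴴ).trace = 0)
    (h2 : ∀ α β, (C α * (B * C β - C β * B)).trace = 0)
    (c : ℝ) (hc0 : 0 ≤ c) (hc : ∀ α, ((C α * (C α)ᴴ).trace).re ≤ c) :
    ∑ α, (((B * C α - C α * B) * (B * C α - C α * B)ᴴ).trace).re
      ≤ (c + ∑ α, ((C α * (C α)ᴴ).trace).re) * ((B * Bᴴ).trace).re := by
  simp_rw [← nsq_eq] at hc ⊢
  set N := nsq B with hN
  have hN0 : 0 ≤ N := nsq_nonneg B
  rcases hN0.eq_or_lt with h | h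
  · have hB : B = 0 := by
      ext a b
      have e1 : ∀ a ∈ (Finset.univ : Finset (Fin n)), ∑ b, Complex.normSq (B a b) = 0 :=
        (Finset.sum_eq_zero_iff_of_nonneg fun a _ =>
          Finset.sum_nonneg fun b _ => Complex.normSq_nonneg _).mp h.symm
      have e2 := (Finset.sum_eq_zero_iff_of_nonneg fun b _ => Complex.normSq_nonneg _).mp
        (e1 a (Finset.mem_univ a)) b (Finset.mem_univ b)
      simpa using e2
    rw [← h, mul_zero, hB]
    simp [nsq]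
  · set s := Real.sqrt N with hs
    have hs0 : 0 < s := Real.sqrt_pos.mpr h
    have hs2 : s ^ 2 = N := Real.sq_sqrt hN0
    have hsm : ∀ A : Matrix (Fin n) (Fin n) ℂ, nsq (((s⁻¹ : ℝ) : ℂ) • A) = N⁻¹ * nsq A := by
      intro A
      unfold nsq
      simp_rw [Finset.mul_sum]
      refine Finset.sum_congr rfl fun a _ => Finset.sum_congr rfl fun b _ => ?_
      rw [Matrix.smul_apply, smul_eq_mul, Complex.normSq_mul, Complex.normSq_ofReal, ← hs2]
      field_simp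
    have hX : nsq (((s⁻¹ : ℝ) : ℂ) • B) = 1 := by
      rw [hsm, ← hN, inv_mul_cancel₀ h.ne']
    have hcm : ∀ A : Matrix (Fin n) (Fin n) ℂ,
        (((s⁻¹ : ℝ) : ℂ) • B) * A - A * (((s⁻¹ : ℝ) : ℂ) • B)
          = ((s⁻¹ : ℝ) : ℂ) • (B * A - A * B) := by
      intro A
      rw [Matrix.smul_mul, Matrix.mul_smul, smul_sub]
    have key := unit_ineq hn (((s⁻¹ : ℝ) : ℂ) • B) hX C h1
      (fun α β => by
        rw [hcm, Matrix.mul_smul, Matrix.trace_smul, h2, smul_zero]) c hc0 hc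
    simp_rw [hcm, hsm, ← Finset.mul_sum] at key
    rw [inv_mul_le_iff₀ h] at key
    linarith

end Pool.Agent.H45.LW
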