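import Pool.Agent.H48.LW.Op

/-!
Operator part of the proof of the complex Lu-Wenzel inequality (MP_642cb2_an); the proof of
`Pool.Agent.H48.LW.orthonormal_le` over the complex numbers.

For a complex matrix `M` with `Mᴴ M + M Mᴴ = diagonal r` the map `K Y = [M, Y]ᴴ` is antilinear,
`⟪K Y, Z⟫ = - ⟪K Z, Y⟫`, `‖K Y‖² ≤ ∑ (r a + r b) |Y a b| ^ 2`, and therefore
`∑ (‖K Y_k‖² - 1) ≤ ∑ (1 - 1 / max 1 (r a + r b)) ‖K E_ab‖²` for every orthonormal family.
-/

set_option autoImplicit false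

open Matrix Finset
open Pool.Agent.H48.LW (g g_pos one_le_g)

namespace Pool.Agent.H45.LW

variable {n : ℕ}

/-- The Euclidean space of complex `n × n` matrices. -/
abbrev E (n : ℕ) := EuclideanSpace ℂ (Fin n × Fin n)

/-- A matrix as a vector. -/
noncomputable def vec (A : Matrix (Fin n) (Fin n) ℂ) : E n :=
  WithLp.toLp 2 (fun p => A p.1 p.2)

/-- A vector as a matrix. -/
def mat (v : E n) : Matrix (Fin n) (Fin n) ℂ := Matrix.of fun i j => v (i, j)

lemma mat_vec (A : Matrix (Fin n) (Fin n) ℂ) : mat (vec A) = A := by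
  ext i j
  simp [mat, vec]

lemma vec_mat (v : E n) : vec (mat v) = v := by
  ext p
  simp [mat, vec]

@[simp] lemma vec_apply (A : Matrix (Fin n) (Fin n) ℂ) (p : Fin n × Fin n) :
    vec A p = A p.1 p.2 := by
  simp [vec]

lemma vec_add (A B : Matrix (Fin n) (Fin n) ℂ) : vec (A + B) = vec A + vec B := by
  ext p; simp

lemma vec_smul (c : ℂ) (A : Matrix (Fin n) (Fin n) ℂ) : vec (c • A) = c • vec A := by
  ext p; simp

lemma mat_add (v w : E n) : mat (v + w) = mat v + mat w := by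
  ext i j; simp [mat]

lemma mat_smul (c : ℂ) (v : E n) : mat (c • v) = c • mat v := by
  ext i j; simp [mat]

lemma inner_vec (A B : Matrix (Fin n) (Fin n) ℂ) :
    inner ℂ (vec A) (vec B) = ∑ i, ∑ j, star (A i j) * B i j := by
  rw [PiLp.inner_apply, Fintype.sum_prod_type]
  refine Finset.sum_congr rfl fun i _ => Finset.sum_congr rfl fun j _ => ?_
  simp [mul_comm]

lemma sum_mul_eq_trace (A B : Matrix (Fin n) (Fin n) ℂ) :
    ∑ i, ∑ j, star (A i j) * B i j = (Aᴴ * B).trace := by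
  rw [Matrix.trace, Finset.sum_comm]
  refine Finset.sum_congr rfl fun i _ => ?_
  simp [Matrix.mul_apply]

lemma inner_vec' (A B : Matrix (Fin n) (Fin n) ℂ) :
    inner ℂ (vec A) (vec B) = (Aᴴ * B).trace := by
  rw [inner_vec, sum_mul_eq_trace]

/-- The square of the Frobenius norm. -/
noncomputable def nsq (A : Matrix (Fin n) (Fin n) ℂ) : ℝ := ∑ i, ∑ j, Complex.normSq (A i j)

lemma nsq_nonneg (A : Matrix (Fin n) (Fin n) ℂ) : 0 ≤ nsq A :=
  Finset.sum_nonneg fun _ _ => Finset.sum_nonneg fun _ _ => Complex.normSq_nonneg _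

lemma norm_vec_sq (A : Matrix (Fin n) (Fin n) ℂ) : ‖vec A‖ ^ 2 = nsq A := by
  rw [EuclideanSpace.norm_sq_eq, Fintype.sum_prod_type]
  refine Finset.sum_congr rfl fun i _ => Finset.sum_congr rfl fun j _ => ?_
  rw [vec_apply, Complex.normSq_eq_norm_sq]

lemma nsq_trace (A : Matrix (Fin n) (Fin n) ℂ) : ((nsq A : ℝ) : ℂ) = (Aᴴ * A).trace := by
  rw [← sum_mul_eq_trace, nsq]
  push_cast
  refine Finset.sum_congr rfl fun i _ => Finset.sum_congr rfl fun j _ => ?_
  exact Complex.normSq_eq_conj_mul_self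

/-- The antilinear skew map `Y ↦ [M, Y]ᴴ`. -/
noncomputable def K (M : Matrix (Fin n) (Fin n) ℂ) : E n →ₛₗ[starRingEnd ℂ] E n where
  toFun v := vec ((M * mat v - mat v * M)ᴴ)
  map_add' v w := by
    rw [mat_add, ← vec_add, ← Matrix.conjTranspose_add]
    congr 2
    noncomm_ring
  map_smul' c v := by
    rw [mat_smul, ← vec_smul, Matrix.mul_smul, Matrix.smul_mul, ← smul_sub,
      Matrix.conjTranspose_smul]
    rfl

lemma K_vec (M A : Matrix (Fin n) (Fin n) ℂ) : K M (vec A) = vec ((M * A - A * M)ᴴ) := by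
  change vec ((M * mat (vec A) - mat (vec A) * M)ᴴ) = _
  rw [mat_vec]

lemma K_skew (M : Matrix (Fin n) (Fin n) ℂ) (v w : E n) :
    inner ℂ (K M v) w = - inner ℂ (K M w) v := by
  rw [← vec_mat v, ← vec_mat w, K_vec, K_vec, inner_vec', inner_vec']
  set A := mat v
  set B := mat w
  have h1 : (((M * A - A * M)ᴴ)ᴴ * B).trace = (M * (A * B)).trace - (A * (M * B)).trace := by
    rw [Matrix.conjTranspose_conjTranspose, Matrix.sub_mul, Matrix.trace_sub, Matrix.mul_assoc,
      Matrix.mul_assoc]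
  have h2 : (((M * B - B * M)ᴴ)ᴴ * A).trace = (A * (M * B)).trace - (M * (A * B)).trace := by
    rw [Matrix.conjTranspose_conjTranspose, Matrix.sub_mul, Matrix.trace_sub]
    congr 1
    · rw [Matrix.trace_mul_comm]
    · rw [Matrix.mul_assoc, Matrix.trace_mul_comm, Matrix.mul_assoc]
  rw [h1, h2]
  ring

lemma nsq_conjTranspose (A : Matrix (Fin n) (Fin n) ℂ) : nsq Aᴴ = nsq A := by
  unfold nsq
  rw [Finset.sum_comm]
  refine Finset.sum_congr rfl fun i _ => Finset.sum_congr rfl fun j _ => ?_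
  rw [Matrix.conjTranspose_apply]
  exact Complex.normSq_conj _

lemma norm_K_sq (M A : Matrix (Fin n) (Fin n) ℂ) :
    ‖K M (vec A)‖ ^ 2 = nsq (M * A - A * M) := by
  rw [K_vec, norm_vec_sq, nsq_conjTranspose]

/-- The basic inequality `‖[M, Y]‖² ≤ ∑ (r a + r b) |Y a b| ^ 2`. -/
lemma comm_le (M : Matrix (Fin n) (Fin n) ℂ) (r : Fin n → ℝ)
    (hM : Mᴴ * M + M * Mᴴ = diagonal (fun a => (r a : ℂ))) (Y : Matrix (Fin n) (Fin n) ℂ) :
    nsq (M * Y - Y * M) ≤ ∑ a, ∑ b, (r a + r b) * Complex.normSq (Y a b) := by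
  have h0 : 0 ≤ nsq (Mᴴ * Y + Y * Mᴴ) := nsq_nonneg _
  have h1 : ((∑ a, ∑ b, (r a + r b) * Complex.normSq (Y a b) : ℝ) : ℂ)
      = ((Mᴴ * M + M * Mᴴ) * (Y * Yᴴ)).trace + ((Mᴴ * M + M * Mᴴ) * (Yᴴ * Y)).trace := by
    rw [hM]
    have e1 : (diagonal (fun a => (r a : ℂ)) * (Y * Yᴴ)).trace
        = ∑ a, ∑ b, (r a : ℂ) * Complex.normSq (Y a b) := by
      rw [Matrix.trace]
      refine Finset.sum_congr rfl fun a _ => ?_
      rw [Matrix.diag_apply, Matrix.diagonal_mul, Matrix.mul_apply, Finset.mul_sum]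
      refine Finset.sum_congr rfl fun b _ => ?_
      rw [Matrix.conjTranspose_apply, ← Complex.mul_conj]
      rfl
    have e2 : (diagonal (fun a => (r a : ℂ)) * (Yᴴ * Y)).trace
        = ∑ a, ∑ b, (r b : ℂ) * Complex.normSq (Y a b) := by
      rw [Matrix.trace, Finset.sum_comm]
      refine Finset.sum_congr rfl fun a _ => ?_
      rw [Matrix.diag_apply, Matrix.diagonal_mul, Matrix.mul_apply, Finset.mul_sum]
      refine Finset.sum_congr rfl fun b _ => ?_
      rw [Matrix.conjTranspose_apply, Complex.normSq_eq_conj_mul_self]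
      rfl
    rw [e1, e2, ← Finset.sum_add_distrib]
    push_cast
    refine Finset.sum_congr rfl fun a _ => ?_
    rw [← Finset.sum_add_distrib]
    refine Finset.sum_congr rfl fun b _ => ?_
    ring
  have h2 : nsq (M * Y - Y * M) + nsq (Mᴴ * Y + Y * Mᴴ)
      = ∑ a, ∑ b, (r a + r b) * Complex.normSq (Y a b) := by
    have h3 : ((nsq (M * Y - Y * M) + nsq (Mᴴ * Y + Y * Mᴴ) : ℝ) : ℂ)
        = ((∑ a, ∑ b, (r a + r b) * Complex.normSq (Y a b) : ℝ) : ℂ) := by
      rw [h1, Complex.ofReal_add, nsq_trace, nsq_trace]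
      simp only [Matrix.conjTranspose_sub, Matrix.conjTranspose_add, Matrix.conjTranspose_mul,
        Matrix.conjTranspose_conjTranspose, Matrix.sub_mul, Matrix.mul_sub, Matrix.add_mul,
        Matrix.mul_add, Matrix.trace_add, Matrix.trace_sub]
      have c1 : (Yᴴ * Mᴴ * (M * Y)).trace = (Mᴴ * M * (Y * Yᴴ)).trace := by
        rw [Matrix.mul_assoc, Matrix.trace_mul_comm]
        simp only [Matrix.mul_assoc]
      have c2 : (Mᴴ * Yᴴ * (Y * M)).trace = (M * Mᴴ * (Yᴴ * Y)).trace := by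
        rw [Matrix.trace_mul_comm (Mᴴ * Yᴴ), Matrix.mul_assoc, Matrix.trace_mul_comm Y]
        simp only [Matrix.mul_assoc]
      have c3 : (Yᴴ * M * (Mᴴ * Y)).trace = (M * Mᴴ * (Y * Yᴴ)).trace := by
        rw [Matrix.mul_assoc, Matrix.trace_mul_comm]
        simp only [Matrix.mul_assoc]
      have c4 : (M * Yᴴ * (Y * Mᴴ)).trace = (Mᴴ * M * (Yᴴ * Y)).trace := by
        rw [Matrix.trace_mul_comm (M * Yᴴ), Matrix.mul_assoc, Matrix.trace_mul_comm Y]
        simp only [Matrix.mul_assoc]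
      have c5 : (Yᴴ * M * (Y * Mᴴ)).trace = (Mᴴ * Yᴴ * (M * Y)).trace := by
        rw [← Matrix.mul_assoc, Matrix.trace_mul_comm]
        simp only [Matrix.mul_assoc]
      have c6 : (M * Yᴴ * (Mᴴ * Y)).trace = (Yᴴ * Mᴴ * (Y * M)).trace := by
        rw [Matrix.mul_assoc, Matrix.trace_mul_comm]
        simp only [Matrix.mul_assoc]
      linear_combination c1 + c2 + c3 + c4 + c5 + c6
    exact_mod_cast h3
  linarith

/-- `q(K F) ≤ ‖F‖²` where `q` is the inverse of the dominating diagonal form. -/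
lemma q_le (M : Matrix (Fin n) (Fin n) ℂ) (r : Fin n → ℝ)
    (hM : Mᴴ * M + M * Mᴴ = diagonal (fun a => (r a : ℂ))) (v : E n) :
    ∑ a, ∑ b, Complex.normSq (mat (K M v) a b) / g r a b ≤ ‖v‖ ^ 2 := by
  set Z := mat (K M v) with hZ
  set q := ∑ a, ∑ b, Complex.normSq (Z a b) / g r a b with hq
  have hq0 : 0 ≤ q := Finset.sum_nonneg fun a _ => Finset.sum_nonneg fun b _ =>
    div_nonneg (Complex.normSq_nonneg _) (g_pos r a b).le
  let Y : Matrix (Fin n) (Fin n) ℂ := Matrix.of fun a b => ((g r a b)⁻¹ : ℝ) * Z a b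
  have h1 : inner ℂ (K M v) (vec Y) = (q : ℂ) := by
    rw [← vec_mat (K M v), inner_vec, hq]
    push_cast
    refine Finset.sum_congr rfl fun a _ => Finset.sum_congr rfl fun b _ => ?_
    simp only [Y, Matrix.of_apply]
    rw [Complex.normSq_eq_conj_mul_self, ← hZ]
    push_cast
    rw [starRingEnd_apply]
    ring
  have h2 : ‖K M (vec Y)‖ ^ 2 ≤ q := by
    rw [norm_K_sq]
    refine (comm_le M r hM Y).trans ?_
    refine Finset.sum_le_sum fun a _ => Finset.sum_le_sum fun b _ => ?_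
    have hg := g_pos r a b
    have h3 : r a + r b ≤ g r a b := le_max_right _ _
    simp only [Y, Matrix.of_apply]
    rw [Complex.normSq_mul, Complex.normSq_ofReal]
    have h4 : 0 ≤ Complex.normSq (Z a b) := Complex.normSq_nonneg _
    have h5 : (r a + r b) * ((g r a b)⁻¹ * (g r a b)⁻¹ * Complex.normSq (Z a b))
        ≤ g r a b * ((g r a b)⁻¹ * (g r a b)⁻¹ * Complex.normSq (Z a b)) :=
      mul_le_mul_of_nonneg_right h3 (by positivity)
    refine h5.trans (le_of_eq ?_)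
    field_simp
  have h4 : q ≤ ‖K M (vec Y)‖ * ‖v‖ := by
    have h3 : ‖(q : ℂ)‖ = ‖inner ℂ (K M (vec Y)) v‖ := by
      rw [← h1, K_skew, norm_neg]
    rw [Complex.norm_real, Real.norm_of_nonneg hq0] at h3
    rw [h3]
    exact norm_inner_le_norm _ _
  have h5 : q ^ 2 ≤ q * ‖v‖ ^ 2 := by
    calc q ^ 2 ≤ (‖K M (vec Y)‖ * ‖v‖) ^ 2 := by
          exact pow_le_pow_left₀ hq0 h4 2
      _ = ‖K M (vec Y)‖ ^ 2 * ‖v‖ ^ 2 := by ring
      _ ≤ q * ‖v‖ ^ 2 := mul_le_mul_of_nonneg_right h2 (sq_nonneg _)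
  rcases hq0.eq_or_lt with h | h
  · rw [← h]; positivity
  · nlinarith

/-- The cost of the certificate, in terms of matrix units. -/
noncomputable def cost' (M : Matrix (Fin n) (Fin n) ℂ) (r : Fin n → ℝ) : ℝ :=
  ∑ a, ∑ b, (1 - 1 / g r a b) * ‖K M (vec (Matrix.single a b 1))‖ ^ 2

lemma mat_K_apply (M : Matrix (Fin n) (Fin n) ℂ) (v : E n) (a b : Fin n) :
    Complex.normSq (mat (K M v) a b) = ‖inner ℂ v (K M (vec (Matrix.single a b 1)))‖ ^ 2 := by
  have h1 : inner ℂ (K M v) (vec (Matrix.single a b (1 : ℂ))) = star (mat (K M v) a b) := by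
    conv_lhs => rw [← vec_mat (K M v)]
    rw [inner_vec]
    rw [Finset.sum_eq_single a, Finset.sum_eq_single b]
    · simp
    · intro j _ hj
      simp [hj.symm]
    · simp
    · intro i _ hi
      apply Finset.sum_eq_zero
      intro j _
      simp [hi.symm]
    · simp
  rw [← norm_inner_symm, ← norm_neg, ← K_skew, h1, Complex.normSq_eq_norm_sq, norm_star]

/-- Lemma C: the Ky Fan type bound for orthonormal families. -/
theorem orthonormal_le (M : Matrix (Fin n) (Fin n) ℂ) (r : Fin n → ℝ)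
    (hM : Mᴴ * M + M * Mᴴ = diagonal (fun a => (r a : ℂ))) {κ : Type*} [Fintype κ] (s : κ → E n)
    (hs : Orthonormal ℂ s) :
    ∑ k, ‖K M (s k)‖ ^ 2 ≤ Fintype.card κ + cost' M r := by
  classical
  have h1 : ∀ k, ‖K M (s k)‖ ^ 2 ≤ 1 + ∑ a, ∑ b, (1 - 1 / g r a b) *
      ‖inner ℂ (s k) (K M (vec (Matrix.single a b 1)))‖ ^ 2 := by
    intro k
    have hq := q_le M r hM (s k)
    rw [hs.1 k, one_pow] at hq
    have e : ‖K M (s k)‖ ^ 2 = ∑ a, ∑ b, Complex.normSq (mat (K M (s k)) a b) := by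
      conv_lhs => rw [← vec_mat (K M (s k)), norm_vec_sq]
      rfl
    have e2 : ∑ a, ∑ b, (1 - 1 / g r a b) * ‖inner ℂ (s k) (K M (vec (Matrix.single a b 1)))‖ ^ 2
        = ∑ a, ∑ b, Complex.normSq (mat (K M (s k)) a b)
          - ∑ a, ∑ b, Complex.normSq (mat (K M (s k)) a b) / g r a b := by
      rw [← Finset.sum_sub_distrib]
      refine Finset.sum_congr rfl fun a _ => ?_
      rw [← Finset.sum_sub_distrib]
      refine Finset.sum_congr rfl fun b _ => ?_
      rw [mat_K_apply]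
      ring
    rw [e2, e]
    linarith
  calc ∑ k, ‖K M (s k)‖ ^ 2 ≤ ∑ k, (1 + ∑ a, ∑ b, (1 - 1 / g r a b) *
        ‖inner ℂ (s k) (K M (vec (Matrix.single a b 1)))‖ ^ 2) :=
        Finset.sum_le_sum fun k _ => h1 k
    _ = Fintype.card κ + ∑ a, ∑ b, (1 - 1 / g r a b) *
        ∑ k, ‖inner ℂ (s k) (K M (vec (Matrix.single a b 1)))‖ ^ 2 := by
        rw [Finset.sum_add_distrib]
        congr 1
        · simp
        · rw [Finset.sum_comm]
          refine Finset.sum_congr rfl fun a _ => ?_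
          rw [Finset.sum_comm]
          refine Finset.sum_congr rfl fun b _ => ?_
          rw [Finset.mul_sum]
    _ ≤ Fintype.card κ + cost' M r := by
        gcongr with a _ b _
        unfold cost'
        gcongr with a _ b _
        · have h2 := one_le_g r a b
          have : 1 / g r a b ≤ 1 := by
            rw [div_le_one (g_pos r a b)]; exact h2
          linarith
        · exact hs.sum_inner_products_le (x := K M (vec (Matrix.single a b 1)))
            (s := Finset.univ)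

end Pool.Agent.H45.LW
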