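import Pool.Agent.H48.LW.Scalar

/-!
Scalar inequality behind the complex Lu-Wenzel inequality (MP_642cb2_an): the proof of
`Pool.Agent.H48.LW.main_abs` with real and imaginary parts.
-/

set_option autoImplicit false

open Finset
open Pool.Agent.H48.LW

namespace Pool.Agent.H45.LW

/-- The contribution of the pairs `(1, g)` and `(2, g)`. -/
lemma S_le' {L m ρ t : ℝ} (hD : m ≤ L) (hm0 : 0 ≤ m) (hρ0 : 0 ≤ ρ)
    (hζ : - (2 * t) ≤ (m + ρ) / 2) (hu : 1 < L + ρ) :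
    2 * phi (L + ρ) * ((L + ρ) / 2 - 2 * t) + 2 * phi (m + ρ) * ((m + ρ) / 2 + 2 * t)
      ≤ 2 * (L + ρ - 1) - (L - m) * phi (L + ρ) := by
  rw [phi_of_ge hu.le]
  have hpos : 0 < L + ρ := by linarith
  rcases le_total (m + ρ) 1 with h | h
  · rw [phi_of_le h]
    have e : 2 * (1 - 1 / (L + ρ)) * ((L + ρ) / 2 - 2 * t)
        = (L + ρ - 1) + (L + ρ - 1) / (L + ρ) * (2 * (- (2 * t))) := by
      field_simp; ring
    have e2 : 2 * (L + ρ - 1) - (L - m) * (1 - 1 / (L + ρ))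
        = (L + ρ - 1) + (L + ρ - 1) / (L + ρ) * (m + ρ) := by
      field_simp; ring
    rw [e, e2]
    have : 0 ≤ (L + ρ - 1) / (L + ρ) := div_nonneg (by linarith) hpos.le
    have := mul_le_mul_of_nonneg_left (show 2 * (- (2 * t)) ≤ m + ρ by linarith) this
    linarith
  · rw [phi_of_ge h]
    have hpos2 : 0 < m + ρ := by linarith
    have e : 2 * (1 - 1 / (L + ρ)) * ((L + ρ) / 2 - 2 * t)
        + 2 * (1 - 1 / (m + ρ)) * ((m + ρ) / 2 + 2 * t)
        = (L + ρ - 1) + (m + ρ - 1)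
          + (L - m) / ((L + ρ) * (m + ρ)) * (2 * (- (2 * t))) := by
      field_simp; ring
    have e2 : 2 * (L + ρ - 1) - (L - m) * (1 - 1 / (L + ρ))
        = (L + ρ - 1) + (m + ρ - 1) + (L - m) / ((L + ρ) * (m + ρ)) * (m + ρ) := by
      field_simp; ring
    rw [e, e2]
    have : 0 ≤ (L - m) / ((L + ρ) * (m + ρ)) := div_nonneg (by linarith) (by positivity)
    have := mul_le_mul_of_nonneg_left (show 2 * (- (2 * t)) ≤ m + ρ by linarith) this
    linarith

variable {κ : Type*}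

/-- Bound for the pairs of indices in the complement of the top two. -/
lemma pairs_le' (E : Finset κ) (w v β o r : κ → ℝ) {z y τ b L m Φ : ℝ}
    (hβ : ∀ g ∈ E, 0 ≤ β g) (ho : ∀ g ∈ E, 0 ≤ o g) (hb : 0 ≤ b) (_hD : m ≤ L) (hm1 : m ≤ 1)
    (hB : ∑ g ∈ E, β g ≤ 2 * b + (L - m)) (hW : ∑ g ∈ E, (2 * w g ^ 2 + 2 * v g ^ 2 + o g) ≤ 2 * τ)
    (hr : ∀ g ∈ E, r g = 2 * (w g + z) ^ 2 + 2 * (v g + y) ^ 2 + β g + o g) (hrm : ∀ g ∈ E, r g ≤ m)
    (hΦ : ∀ g ∈ E, ∑ h ∈ E, phi (r g + r h) ≤ Φ) (hΦ0 : 0 ≤ Φ) (hΦk : Φ ≤ E.card / 2) :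
    ∑ g ∈ E, ∑ h ∈ E, phi (r g + r h) * ((r g + r h) / 2 - 2 * ((w g + z) * (w h + z) + (v g + y) * (v h + y)))
      ≤ (E.card * ∑ g ∈ E, (w g ^ 2 + v g ^ 2) - ((∑ g ∈ E, w g) ^ 2 + (∑ g ∈ E, v g) ^ 2)) + E.card * (τ - ∑ g ∈ E, (w g ^ 2 + v g ^ 2))
        + b * E.card + (L - m) * Φ := by
  have hφ : ∀ g ∈ E, ∀ h ∈ E, phi (r g + r h) ≤ 1 / 2 := fun g hg h hh =>
    phi_le_half (by linarith [hrm g hg, hrm h hh])
  have h1 : ∑ g ∈ E, ∑ h ∈ E, phi (r g + r h) * ((r g + r h) / 2 - 2 * ((w g + z) * (w h + z) + (v g + y) * (v h + y)))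
      = ∑ g ∈ E, ∑ h ∈ E, phi (r g + r h) * ((w g - w h) ^ 2 + (v g - v h) ^ 2)
        + ∑ g ∈ E, (β g + o g) * ∑ h ∈ E, phi (r g + r h) := by
    have a1 : ∑ g ∈ E, ∑ h ∈ E, phi (r g + r h) * ((r g + r h) / 2 - 2 * ((w g + z) * (w h + z) + (v g + y) * (v h + y)))
        = ∑ g ∈ E, ∑ h ∈ E, (phi (r g + r h) * ((w g - w h) ^ 2 + (v g - v h) ^ 2)
          + (1 / 2 * ((β g + o g) * phi (r g + r h)) + 1 / 2 * ((β h + o h) * phi (r g + r h)))) := by
      refine Finset.sum_congr rfl fun g hg => Finset.sum_congr rfl fun h hh => ?_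
      rw [hr g hg, hr h hh]; ring
    rw [a1]
    simp only [Finset.sum_add_distrib, ← Finset.mul_sum]
    congr 1
    have a2 : ∑ g ∈ E, ∑ h ∈ E, (β h + o h) * phi (r g + r h)
        = ∑ g ∈ E, (β g + o g) * ∑ h ∈ E, phi (r g + r h) := by
      rw [Finset.sum_comm]
      refine Finset.sum_congr rfl fun g _ => ?_
      rw [Finset.mul_sum]
      refine Finset.sum_congr rfl fun h _ => ?_
      rw [add_comm (r h)]
    rw [a2]; ring
  have h2 : ∑ g ∈ E, ∑ h ∈ E, phi (r g + r h) * ((w g - w h) ^ 2 + (v g - v h) ^ 2)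
      ≤ E.card * ∑ g ∈ E, (w g ^ 2 + v g ^ 2) - ((∑ g ∈ E, w g) ^ 2 + (∑ g ∈ E, v g) ^ 2) := by
    calc ∑ g ∈ E, ∑ h ∈ E, phi (r g + r h) * ((w g - w h) ^ 2 + (v g - v h) ^ 2)
        ≤ ∑ g ∈ E, ∑ h ∈ E, 1 / 2 * ((w g - w h) ^ 2 + (v g - v h) ^ 2) :=
          Finset.sum_le_sum fun g hg => Finset.sum_le_sum fun h hh =>
            mul_le_mul_of_nonneg_right (hφ g hg h hh) (by positivity)
      _ = E.card * ∑ g ∈ E, (w g ^ 2 + v g ^ 2) - ((∑ g ∈ E, w g) ^ 2 + (∑ g ∈ E, v g) ^ 2) := by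
          have : ∀ g h, 1 / 2 * ((w g - w h) ^ 2 + (v g - v h) ^ 2)
              = 1 / 2 * (w g ^ 2 + v g ^ 2) + 1 / 2 * (w h ^ 2 + v h ^ 2)
              - (w g * w h + v g * v h) := fun g h => by ring
          simp_rw [this, Finset.sum_sub_distrib, Finset.sum_add_distrib, Finset.sum_const,
            nsmul_eq_mul, ← Finset.mul_sum, ← Finset.sum_mul, Finset.sum_add_distrib]
          ring
  have h3 : ∑ g ∈ E, (β g + o g) * ∑ h ∈ E, phi (r g + r h)
      ≤ (∑ g ∈ E, β g) * Φ + (∑ g ∈ E, o g) * (E.card / 2) := by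
    rw [Finset.sum_mul, Finset.sum_mul, ← Finset.sum_add_distrib]
    refine Finset.sum_le_sum fun g hg => ?_
    have b1 := mul_le_mul_of_nonneg_left (hΦ g hg) (hβ g hg)
    have b2 := mul_le_mul_of_nonneg_left ((hΦ g hg).trans hΦk) (ho g hg)
    linarith
  have h4 : (∑ g ∈ E, o g) ≤ 2 * (τ - ∑ g ∈ E, (w g ^ 2 + v g ^ 2)) := by
    rw [Finset.sum_add_distrib, Finset.sum_add_distrib, ← Finset.mul_sum, ← Finset.mul_sum] at hW
    rw [Finset.sum_add_distrib]
    linarith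
  have hk : (0 : ℝ) ≤ E.card := Nat.cast_nonneg _
  have h5 : (∑ g ∈ E, β g) * Φ ≤ b * E.card + (L - m) * Φ := by
    have c1 := mul_le_mul_of_nonneg_right hB hΦ0
    have c2 := mul_le_mul_of_nonneg_left hΦk hb
    nlinarith
  have h6 : (∑ g ∈ E, o g) * (E.card / 2) ≤ E.card * (τ - ∑ g ∈ E, (w g ^ 2 + v g ^ 2)) := by
    have := mul_le_mul_of_nonneg_right h4 (show (0 : ℝ) ≤ E.card / 2 by positivity)
    linarith
  rw [h1]
  linarith

/-- The scalar inequality. -/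
theorem main_abs' (E : Finset κ) (w v β o r t : κ → ℝ) {z y τ b L m q : ℝ}
    (hβ : ∀ g ∈ E, 0 ≤ β g) (ho : ∀ g ∈ E, 0 ≤ o g) (hb : 0 ≤ b) (hD : m ≤ L)
    (hL : L = 1 - (2 * z ^ 2 + 2 * y ^ 2 + τ + b)) (hq0 : 0 ≤ q) (hξ : 2 * q ≤ m)
    (ht : ∀ g ∈ E, -(2 * t g) ≤ (m + r g) / 2)
    (hB : ∑ g ∈ E, β g ≤ 2 * b + (L - m)) (hW : ∑ g ∈ E, (2 * w g ^ 2 + 2 * v g ^ 2 + o g) ≤ 2 * τ)
    (hr : ∀ g ∈ E, r g = 2 * (w g + z) ^ 2 + 2 * (v g + y) ^ 2 + β g + o g) (hrm : ∀ g ∈ E, r g ≤ m)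
    (hu : ∀ g ∈ E, 1 < L + r g) (hL2 : 1 / 2 < L) :
    phi (L + L) * (L - 2 * q) + phi (m + m) * (m - 2 * q)
      + 2 * phi (L + m) * ((L + m) / 2 + 2 * q)
    + ∑ g ∈ E, (2 * phi (L + r g) * ((L + r g) / 2 - 2 * t g)
        + 2 * phi (m + r g) * ((m + r g) / 2 + 2 * t g))
    + ∑ g ∈ E, ∑ h ∈ E, phi (r g + r h) * ((r g + r h) / 2 - 2 * ((w g + z) * (w h + z) + (v g + y) * (v h + y))) ≤ 2 := by
  classical
  have hτ : 0 ≤ τ := by
    have : 0 ≤ ∑ g ∈ E, (2 * w g ^ 2 + 2 * v g ^ 2 + o g) :=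
      Finset.sum_nonneg fun g hg => by have := ho g hg; positivity
    linarith
  have hm0 : 0 ≤ m := le_trans (by positivity) hξ
  have hL1 : L ≤ 1 := by rw [hL]; nlinarith [sq_nonneg z, sq_nonneg y]
  have hm1 : m ≤ 1 := hD.trans hL1
  have hk : (0 : ℝ) ≤ E.card := Nat.cast_nonneg _
  set Sw := ∑ g ∈ E, w g with hSw
  set Sv := ∑ g ∈ E, v g with hSv
  set Sw2 := ∑ g ∈ E, (w g ^ 2 + v g ^ 2) with hSw2
  set So := ∑ g ∈ E, o g with hSo
  set Bt := ∑ g ∈ E, β g with hBt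
  set U := ∑ g ∈ E, (L + r g - 1) with hU
  have hU0 : 0 ≤ U := Finset.sum_nonneg fun g hg => by linarith [hu g hg]
  have hU' : U = 2 * Sw2 + 4 * z * Sw + 4 * y * Sv + Bt + So - E.card * (τ + b) := by
    have : U = ∑ g ∈ E, (2 * (w g ^ 2 + v g ^ 2) + 4 * z * w g + 4 * y * v g + β g + o g
        - (τ + b)) := by
      refine Finset.sum_congr rfl fun g hg => ?_
      rw [hr g hg, hL]; ring
    rw [this, Finset.sum_sub_distrib, Finset.sum_add_distrib, Finset.sum_add_distrib,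
      Finset.sum_add_distrib, Finset.sum_add_distrib, ← Finset.mul_sum, ← Finset.mul_sum,
      ← Finset.mul_sum, Finset.sum_const, nsmul_eq_mul]
  have hW' : 2 * Sw2 + So ≤ 2 * τ := by
    rw [Finset.sum_add_distrib, Finset.sum_add_distrib, ← Finset.mul_sum, ← Finset.mul_sum] at hW
    rw [hSw2, Finset.sum_add_distrib]
    linarith
  have hSo0 : 0 ≤ So := Finset.sum_nonneg ho
  have hCS : Sw ^ 2 + Sv ^ 2 ≤ E.card * Sw2 := by
    have a1 : Sw ^ 2 ≤ E.card * ∑ g ∈ E, w g ^ 2 := sq_sum_le_card_mul_sum_sq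
    have a2 : Sv ^ 2 ≤ E.card * ∑ g ∈ E, v g ^ 2 := sq_sum_le_card_mul_sum_sq
    rw [hSw2, Finset.sum_add_distrib, mul_add]
    linarith
  set δ := 2 - 2 * L + (L - m) - U with hδ
  have hδ1 : (E.card * Sw2 - (Sw ^ 2 + Sv ^ 2)) + E.card * (τ - Sw2) + b * E.card ≤ δ := by
    have e : δ = (2 * z - Sw) ^ 2 + (2 * y - Sv) ^ 2 + (E.card * Sw2 - (Sw ^ 2 + Sv ^ 2))
        + E.card * (τ - Sw2)
        + (2 * τ - 2 * Sw2 - So) + ((L - m) + 2 * b - Bt) + b * E.card := by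
      rw [hδ, hU']
      nth_rewrite 1 [hL]
      ring
    rw [e]
    nlinarith [sq_nonneg (2 * z - Sw), sq_nonneg (2 * y - Sv)]
  have hδ0 : 0 ≤ δ := by
    have : 0 ≤ E.card * (τ - Sw2) := mul_nonneg hk (by linarith)
    have : 0 ≤ b * E.card := mul_nonneg hb hk
    linarith
  have hr0 : ∀ g ∈ E, 0 ≤ r g := by
    intro g hg
    rw [hr g hg]
    have := hβ g hg
    have := ho g hg
    positivity
  have hS : ∑ g ∈ E, (2 * phi (L + r g) * ((L + r g) / 2 - 2 * t g)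
        + 2 * phi (m + r g) * ((m + r g) / 2 + 2 * t g))
      ≤ 2 * U - (L - m) * ∑ g ∈ E, phi (L + r g) := by
    rw [hU, Finset.mul_sum, Finset.mul_sum, ← Finset.sum_sub_distrib]
    exact Finset.sum_le_sum fun g hg => S_le' hD hm0 (hr0 g hg) (ht g hg) (hu g hg)
  have hφU : U ≤ (L + m) * ∑ g ∈ E, phi (L + r g) := by
    rw [hU, Finset.mul_sum]
    refine Finset.sum_le_sum fun g hg => ?_
    have h1 := hu g hg
    rw [phi_of_ge h1.le]
    have e : (1 : ℝ) - 1 / (L + r g) = (L + r g - 1) / (L + r g) := by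
      have : L + r g ≠ 0 := by linarith
      field_simp
    rw [e, ← mul_div_assoc, le_div_iff₀ (by linarith)]
    have := hrm g hg
    nlinarith
  set Tφ := ∑ g ∈ E, phi (L + r g) with hTφ
  have hTφ0 : 0 ≤ Tφ := Finset.sum_nonneg fun g _ => phi_nonneg _
  rcases le_total (m + m) 1 with hcase | hcase
  · -- case B
    have hP : ∑ g ∈ E, ∑ h ∈ E, phi (r g + r h) *
        ((r g + r h) / 2 - 2 * ((w g + z) * (w h + z) + (v g + y) * (v h + y))) = 0 := by
      refine Finset.sum_eq_zero fun g hg => Finset.sum_eq_zero fun h hh => ?_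
      rw [phi_of_le (by linarith [hrm g hg, hrm h hh]), zero_mul]
    rw [hP, phi_of_le hcase]
    rcases le_or_gt (L + m) 1 with h | h
    · have hE : E = ∅ := by
        rw [Finset.eq_empty_iff_forall_notMem]
        intro g hg
        linarith [hu g hg, hrm g hg]
      rw [phi_of_le h, hE]
      simp only [Finset.sum_empty]
      have h1 : phi (L + L) ≤ 1 / 2 := phi_le_half (by linarith)
      have h2 := phi_nonneg (L + L)
      nlinarith
    · have hsq : Real.sqrt q ^ 2 = q := Real.sq_sqrt hq0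
      have hB' := caseB (ξ := Real.sqrt q) hD (by rw [hsq]; exact hξ) hcase h hL1
      rw [hsq] at hB'
      have h1 : 2 * U - (L - m) * Tφ ≤ (2 - (L + m)) * (2 - (L - m) / (L + m)) := by
        have hs : 0 < L + m := by linarith
        have a1 : U / (L + m) ≤ Tφ := by rw [div_le_iff₀ hs]; linarith
        have a2 := mul_le_mul_of_nonneg_left a1 (sub_nonneg.mpr hD)
        have a3 : U ≤ 2 - (L + m) := by linarith
        have a4 : 0 ≤ 2 - (L - m) / (L + m) := by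
          have : (L - m) / (L + m) ≤ 1 := by rw [div_le_one hs]; linarith
          linarith
        have a5 := mul_le_mul_of_nonneg_right a3 a4
        have a6 : U * (2 - (L - m) / (L + m)) = 2 * U - (L - m) * (U / (L + m)) := by ring
        linarith
      linarith
  · -- case A
    have hsq : Real.sqrt q ^ 2 = q := Real.sq_sqrt hq0
    have hPU := PU_le (ξ := Real.sqrt q) hD (by rw [hsq]; exact hξ) (show 1 / 2 ≤ m by linarith)
    rw [hsq] at hPU
    set Ξ := (L - m) ^ 2 / (2 * L * (L + m)) with hΞ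
    have hmpos : 0 < m := by linarith
    have hLpos : 0 < L := by linarith
    by_cases hall : ∀ g ∈ E, ∀ h ∈ E, phi (r g + r h) = 0
    · have hP := pairs_le' E w v β o r (z := z) (y := y) (τ := τ) (b := b) (L := L) (m := m) (Φ := 0)
        hβ ho hb hD hm1 hB hW hr hrm
        (fun g hg => by rw [Finset.sum_eq_zero fun h hh => hall g hg h hh]) le_rfl
        (by positivity)
      have key : Ξ ≤ δ + (L - m) * Tφ := by
        have h1 : (L - m) * U ≤ (L - m) * ((L + m) * Tφ) :=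
          mul_le_mul_of_nonneg_left hφU (sub_nonneg.mpr hD)
        have h2 : (L - m) - δ ≤ U := by rw [hδ]; linarith
        have h3 := mul_le_mul_of_nonneg_left h2 (sub_nonneg.mpr hD)
        have h6 : (L - m) * δ ≤ (L + m) * δ := mul_le_mul_of_nonneg_right (by linarith) hδ0
        have h4 : (L - m) ^ 2 ≤ (δ + (L - m) * Tφ) * (L + m) := by
          have e1 : (L - m) ^ 2 = (L - m) * ((L - m) - δ) + (L - m) * δ := by ring
          have e2 : (δ + (L - m) * Tφ) * (L + m)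
              = (L + m) * δ + (L - m) * ((L + m) * Tφ) := by ring
          rw [e1, e2]; linarith
        have h5 : 0 ≤ (δ + (L - m) * Tφ) * (L + m) := le_trans (sq_nonneg _) h4
        rw [hΞ, div_le_iff₀ (by positivity)]
        have h7 := mul_le_mul_of_nonneg_right (show 1 ≤ 2 * L by linarith) h5
        have e3 : (δ + (L - m) * Tφ) * (2 * L * (L + m))
            = 2 * L * ((δ + (L - m) * Tφ) * (L + m)) := by ring
        rw [e3]; linarith
      linarith
    · push_neg at hall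
      obtain ⟨g₀, hg₀, h₀, hh₀, hne⟩ := hall
      have hpos₀ : 0 < phi (r g₀ + r h₀) := lt_of_le_of_ne (phi_nonneg _) (Ne.symm hne)
      obtain ⟨g₁, hg₁, hmax⟩ := Finset.exists_max_image E
        (fun g => ∑ h ∈ E, phi (r g + r h)) ⟨g₀, hg₀⟩
      set Φ := ∑ h ∈ E, phi (r g₁ + r h) with hΦ
      have hΦpos : 0 < Φ := by
        refine lt_of_lt_of_le ?_ (hmax g₀ hg₀)
        exact lt_of_lt_of_le hpos₀ (Finset.single_le_sum (f := fun h => phi (r g₀ + r h))
          (fun h _ => phi_nonneg _) hh₀)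
      have hΦk : Φ ≤ E.card / 2 := by
        have : Φ ≤ ∑ _h ∈ E, (1 / 2 : ℝ) := Finset.sum_le_sum fun h hh =>
          phi_le_half (by linarith [hrm g₁ hg₁, hrm h hh])
        rw [Finset.sum_const, nsmul_eq_mul] at this
        linarith
      have hP := pairs_le' E w v β o r (z := z) (y := y) (τ := τ) (b := b) (L := L) (m := m) (Φ := Φ)
        hβ ho hb hD hm1 hB hW hr hrm hmax hΦpos.le hΦk
      have hρ : 1 < r g₁ + m := by
        by_contra hcon
        push_neg at hcon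
        have : Φ = 0 := Finset.sum_eq_zero fun h hh => phi_of_le (by linarith [hrm h hh])
        linarith
      have hsl := slack hD (show 1 / 2 ≤ m by linarith) (hrm g₁ hg₁) hρ
      have hsum : Φ + (L - m) / (2 * L * (L + m)) ≤ Tφ := by
        rw [hΦ, hTφ, ← Finset.add_sum_erase E _ hg₁, ← Finset.add_sum_erase E _ hg₁]
        have : ∑ h ∈ E.erase g₁, phi (r g₁ + r h) ≤ ∑ h ∈ E.erase g₁, phi (L + r h) :=
          Finset.sum_le_sum fun h _ => phi_mono (by linarith [hrm g₁ hg₁])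
        linarith
      have hΞ' : Ξ = (L - m) * ((L - m) / (2 * L * (L + m))) := by rw [hΞ]; ring
      have h8 := mul_le_mul_of_nonneg_left hsum (sub_nonneg.mpr hD)
      rw [mul_add, ← hΞ'] at h8
      linarith

end Pool.Agent.H45.LW
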