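import Mathlib

/-!
# Second order conditions with a phase (complex Lu-Wenzel inequality)
-/

set_option autoImplicit false

namespace Pool.Agent.H45.LW

open Matrix

/-- The spectral theorem for Hermitian matrices. -/
lemma exists_diag {k : Type*} [Fintype k] [DecidableEq k] (S : Matrix k k ℂ) (hS : Sᴴ = S) :
    ∃ (V : Matrix k k ℂ) (d : k → ℝ), Vᴴ * V = 1 ∧ Vᴴ * S * V = diagonal (fun a => (d a : ℂ)) := by
  have hH : S.IsHermitian := hS
  refine ⟨(hH.eigenvectorUnitary : Matrix k k ℂ), hH.eigenvalues, ?_, ?_⟩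
  · have := Unitary.coe_star_mul_self hH.eigenvectorUnitary
    rwa [Matrix.star_eq_conjTranspose] at this
  · have := hH.conjStarAlgAut_star_eigenvectorUnitary
    rw [Unitary.conjStarAlgAut_star_apply, star_eq_conjTranspose] at this
    simpa [Function.comp_def] using this

/-- A real linear map from `ℝ × ℂ` to `ℂ` has a nonzero kernel vector. -/
lemma exists_ker (d a b : ℂ) : ∃ (s : ℝ) (ζ : ℂ), (s ≠ 0 ∨ ζ ≠ 0) ∧
    (s : ℂ) * d + (ζ * a + (starRingEnd ℂ) ζ * b) = 0 := by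
  let f : ℝ × ℂ →ₗ[ℝ] ℂ :=
    { toFun := fun x => (x.1 : ℂ) * d + (x.2 * a + (starRingEnd ℂ) x.2 * b)
      map_add' := fun x y => by
        simp only [Prod.fst_add, Prod.snd_add, Complex.ofReal_add, map_add]
        ring
      map_smul' := fun c x => by
        simp only [Prod.smul_fst, Prod.smul_snd, smul_eq_mul, Complex.ofReal_mul,
          Complex.real_smul, map_mul, Complex.conj_ofReal, RingHom.id_apply]
        ring }
  have hf : LinearMap.ker f ≠ ⊥ := LinearMap.ker_ne_bot_of_finrank_lt (by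
    rw [Module.finrank_prod, Complex.finrank_real_complex, Module.finrank_self]
    norm_num)
  obtain ⟨x, hx, hx0⟩ := Submodule.exists_mem_ne_zero_of_ne_bot hf
  refine ⟨x.1, x.2, ?_, hx⟩
  by_contra h
  push Not at h
  exact hx0 (Prod.ext h.1 h.2)

/-- The scalar first and second order conditions. -/
lemma scalar_cond (D : ℝ) (p d a b : ℂ)
    (H : ∀ (c : ℝ) (σ : ℂ), c ^ 2 + Complex.normSq σ = 1 →
      Complex.normSq σ * D + 2 * c * (σ * p).re ≤
        Complex.normSq ((Complex.normSq σ : ℂ) * d + (c : ℂ) * (σ * a + (starRingEnd ℂ) σ * b))) :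
    p = 0 ∧ D ≤ 0 := by
  have hp : p = 0 := by
    by_contra hp
    have hpp : 0 < Complex.normSq p := Complex.normSq_pos.2 hp
    set S : ℝ := ‖d‖ + (‖a‖ + ‖b‖) with hS
    have hS0 : 0 ≤ S := by positivity
    set C : ℝ := S ^ 2 + |D| + 1 with hC
    have hCpos : 0 < C := by positivity
    set N : ℝ := Real.sqrt (Complex.normSq p + C ^ 2) with hN
    have hNpos : 0 < N := Real.sqrt_pos.2 (by positivity)
    have hN2 : N ^ 2 = Complex.normSq p + C ^ 2 := Real.sq_sqrt (by positivity)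
    obtain ⟨σ, hσ⟩ : ∃ σ : ℂ, σ = ((N⁻¹ : ℝ) : ℂ) * (starRingEnd ℂ) p := ⟨_, rfl⟩
    have hσn : Complex.normSq σ = Complex.normSq p / N ^ 2 := by
      rw [hσ, Complex.normSq_mul, Complex.normSq_ofReal, Complex.normSq_conj]
      field_simp
    have hσp : (σ * p).re = Complex.normSq p / N := by
      rw [hσ, mul_assoc, ← Complex.normSq_eq_conj_mul_self, Complex.re_ofReal_mul,
        Complex.ofReal_re]
      field_simp
    have hcs : (C / N) ^ 2 + Complex.normSq σ = 1 := by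
      rw [hσn]
      field_simp
      rw [hN2]; ring
    have h1 := H (C / N) σ hcs
    have hσ1 : ‖σ‖ ≤ 1 := by
      have : ‖σ‖ ^ 2 ≤ 1 := by
        rw [← Complex.normSq_eq_norm_sq]
        nlinarith [sq_nonneg (C / N)]
      nlinarith [norm_nonneg σ]
    have hc1 : |C / N| ≤ 1 := by
      have : (C / N) ^ 2 ≤ 1 := by nlinarith [Complex.normSq_nonneg σ]
      exact abs_le_one_iff_mul_self_le_one.2 (by rw [← sq]; exact this)
    have h2 : Complex.normSq ((Complex.normSq σ : ℂ) * d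
        + ((C / N : ℝ) : ℂ) * (σ * a + (starRingEnd ℂ) σ * b)) ≤ Complex.normSq σ * S ^ 2 := by
      rw [Complex.normSq_eq_norm_sq, Complex.normSq_eq_norm_sq, ← mul_pow]
      refine pow_le_pow_left₀ (norm_nonneg _) ?_ 2
      refine (norm_add_le _ _).trans ?_
      rw [norm_mul, norm_mul, Complex.norm_real, Complex.norm_real, Real.norm_eq_abs,
        Real.norm_eq_abs]
      have h3 : ‖σ * a + (starRingEnd ℂ) σ * b‖ ≤ ‖σ‖ * (‖a‖ + ‖b‖) := by
        refine (norm_add_le _ _).trans ?_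
        rw [norm_mul, norm_mul, RCLike.norm_conj, mul_add]
      have h4 : |‖σ‖ ^ 2| * ‖d‖ ≤ ‖σ‖ * ‖d‖ := by
        rw [abs_of_nonneg (sq_nonneg _)]
        refine mul_le_mul_of_nonneg_right ?_ (norm_nonneg _)
        nlinarith [norm_nonneg σ]
      have h5 : |C / N| * ‖σ * a + (starRingEnd ℂ) σ * b‖ ≤ ‖σ‖ * (‖a‖ + ‖b‖) := by
        refine le_trans ?_ h3
        exact mul_le_of_le_one_left (norm_nonneg _) hc1
      rw [hS, mul_add]
      exact add_le_add h4 h5
    have h3 := h1.trans h2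
    rw [hσp, hσn] at h3
    have h4 : Complex.normSq p / N ^ 2 * (D + 2 * C) ≤ Complex.normSq p / N ^ 2 * S ^ 2 := by
      refine le_trans (le_of_eq ?_) h3
      field_simp
    have h5 : 0 < Complex.normSq p / N ^ 2 := by positivity
    have h6 : D + 2 * C ≤ S ^ 2 := le_of_mul_le_mul_left h4 h5
    have h7 : -|D| ≤ D := neg_abs_le D
    nlinarith [sq_nonneg S, abs_nonneg D]
  refine ⟨hp, ?_⟩
  subst hp
  -- the inequality for all unit vectors
  have key : ∀ (s : ℝ) (ζ : ℂ), s ≠ 0 → s ^ 2 + Complex.normSq ζ = 1 →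
      D ≤ Complex.normSq ((s : ℂ) * d + (ζ * a + (starRingEnd ℂ) ζ * b)) := by
    intro s ζ hs h1
    have hs2 : 0 < s ^ 2 := by positivity
    rcases eq_or_ne ζ 0 with hζ | hζ
    · subst hζ
      rw [map_zero, add_zero] at h1
      have h2 := H 0 1 (by simp)
      simp only [map_one, one_mul, mul_zero, zero_mul, add_zero, Complex.ofReal_zero,
        Complex.ofReal_one] at h2
      rw [map_zero, zero_mul, zero_mul, add_zero, add_zero, Complex.normSq_mul,
        Complex.normSq_ofReal, ← sq, h1, one_mul]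
      simpa using h2
    · have hn : 0 < ‖ζ‖ := norm_pos_iff.2 hζ
      obtain ⟨σ, hσ⟩ : ∃ σ : ℂ, σ = ((s * ‖ζ‖⁻¹ : ℝ) : ℂ) * ζ := ⟨_, rfl⟩
      have hσn : Complex.normSq σ = s ^ 2 := by
        rw [hσ, Complex.normSq_mul, Complex.normSq_ofReal, Complex.normSq_eq_norm_sq]
        field_simp
      have hcσ : ((‖ζ‖ : ℝ) : ℂ) * σ = (s : ℂ) * ζ := by
        rw [hσ]
        push_cast
        have : ((‖ζ‖ : ℝ) : ℂ) ≠ 0 := by exact_mod_cast hn.ne'
        field_simp
      have hcσ' : ((‖ζ‖ : ℝ) : ℂ) * (starRingEnd ℂ) σ = (s : ℂ) * (starRingEnd ℂ) ζ := by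
        have := congrArg (starRingEnd ℂ) hcσ
        simpa [map_mul, Complex.conj_ofReal] using this
      have h2 := H ‖ζ‖ σ (by rw [hσn, ← Complex.normSq_eq_norm_sq]; linarith)
      have h3 : (Complex.normSq σ : ℂ) * d + ((‖ζ‖ : ℝ) : ℂ) * (σ * a + (starRingEnd ℂ) σ * b)
          = (s : ℂ) * ((s : ℂ) * d + (ζ * a + (starRingEnd ℂ) ζ * b)) := by
        rw [hσn, mul_add ((‖ζ‖ : ℝ) : ℂ), ← mul_assoc, ← mul_assoc, hcσ, hcσ']
        push_cast
        ring
      rw [h3, hσn, mul_zero, Complex.zero_re, mul_zero, add_zero, Complex.normSq_mul,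
        Complex.normSq_ofReal, ← sq] at h2
      exact le_of_mul_le_mul_left h2 hs2
  -- homogeneous form
  have key2 : ∀ (s : ℝ) (ζ : ℂ), s ≠ 0 →
      D * (s ^ 2 + Complex.normSq ζ)
        ≤ Complex.normSq ((s : ℂ) * d + (ζ * a + (starRingEnd ℂ) ζ * b)) := by
    intro s ζ hs
    set R : ℝ := s ^ 2 + Complex.normSq ζ with hR
    have hRpos : 0 < R := by
      have : 0 < s ^ 2 := by positivity
      have := Complex.normSq_nonneg ζ
      linarith
    set ρ : ℝ := (Real.sqrt R)⁻¹ with hρ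
    have hρ0 : 0 < ρ := inv_pos.2 (Real.sqrt_pos.2 hRpos)
    have hρ2 : ρ ^ 2 * R = 1 := by
      rw [hρ, inv_pow, Real.sq_sqrt hRpos.le]
      exact inv_mul_cancel₀ hRpos.ne'
    have h1 := key (ρ * s) ((ρ : ℂ) * ζ) (mul_ne_zero hρ0.ne' hs) (by
      rw [Complex.normSq_mul, Complex.normSq_ofReal, ← hρ2, hR]; ring)
    have h2 : ((ρ * s : ℝ) : ℂ) * d + ((ρ : ℂ) * ζ * a + (starRingEnd ℂ) ((ρ : ℂ) * ζ) * b)
        = (ρ : ℂ) * ((s : ℂ) * d + (ζ * a + (starRingEnd ℂ) ζ * b)) := by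
      rw [map_mul, Complex.conj_ofReal]
      push_cast
      ring
    rw [h2, Complex.normSq_mul, Complex.normSq_ofReal, ← sq] at h1
    calc D * R ≤ (ρ ^ 2 * Complex.normSq ((s : ℂ) * d + (ζ * a + (starRingEnd ℂ) ζ * b))) * R :=
          mul_le_mul_of_nonneg_right h1 hRpos.le
      _ = (ρ ^ 2 * R) * Complex.normSq ((s : ℂ) * d + (ζ * a + (starRingEnd ℂ) ζ * b)) := by ring
      _ = _ := by rw [hρ2, one_mul]
  obtain ⟨s₀, ζ₀, h0, hker⟩ := exists_ker d a b
  by_contra hD
  push Not at hD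
  rcases eq_or_ne s₀ 0 with hs | hs
  · subst hs
    have hζ : ζ₀ ≠ 0 := h0.resolve_left fun h => h rfl
    rw [Complex.ofReal_zero, zero_mul, zero_add] at hker
    have hn : 0 < Complex.normSq ζ₀ := Complex.normSq_pos.2 hζ
    set x : ℝ := D * Complex.normSq ζ₀ with hx
    have hx0 : 0 < x := mul_pos hD hn
    set e : ℝ := Real.sqrt (x / (Complex.normSq d + 1)) with he
    have hd1 : 0 < Complex.normSq d + 1 := by have := Complex.normSq_nonneg d; linarith
    have he0 : 0 < e := Real.sqrt_pos.2 (by positivity)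
    have he2 : e ^ 2 = x / (Complex.normSq d + 1) := Real.sq_sqrt (by positivity)
    have h1 := key2 e ζ₀ he0.ne'
    rw [hker, add_zero, Complex.normSq_mul, Complex.normSq_ofReal, ← sq] at h1
    have h2 : D * (e ^ 2 + Complex.normSq ζ₀) = D * e ^ 2 + x := by rw [hx]; ring
    have h3 : 0 < D * e ^ 2 := by positivity
    have h4 : e ^ 2 * Complex.normSq d ≤ x := by
      rw [he2, div_mul_eq_mul_div, div_le_iff₀ hd1]
      nlinarith
    linarith
  · have h1 := key2 s₀ ζ₀ hs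
    rw [hker, map_zero] at h1
    have h2 : 0 < s₀ ^ 2 := by positivity
    have h3 := Complex.normSq_nonneg ζ₀
    have : 0 < D * (s₀ ^ 2 + Complex.normSq ζ₀) := mul_pos hD (by linarith)
    linarith

lemma exists_half (c : ℝ) (σ : ℂ) (h : c ^ 2 + Complex.normSq σ = 1) :
    ∃ (α : ℝ) (β : ℂ), α ^ 2 + Complex.normSq β = 1 ∧ -2 * (α : ℂ) * β = σ ∧
      1 - 2 * α ^ 2 = c := by
  have hn := Complex.normSq_nonneg σ
  have hc1 : c ≤ 1 := by nlinarith
  have hc2 : -1 ≤ c := by nlinarith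
  have ha : (Real.sqrt ((1 - c) / 2)) ^ 2 = (1 - c) / 2 := Real.sq_sqrt (by linarith)
  rcases hc1.eq_or_lt with h1 | h1
  · refine ⟨0, 1, by simp, ?_, by rw [h1]; ring⟩
    have : Complex.normSq σ = 0 := by rw [h1] at h; linarith
    rw [Complex.normSq_eq_zero.1 this]
    simp
  · set α := Real.sqrt ((1 - c) / 2) with hα
    have hα0 : 0 < α := Real.sqrt_pos.2 (by linarith)
    have hαc : (α : ℂ) ≠ 0 := by exact_mod_cast hα0.ne'
    refine ⟨α, ((-(2 * α)⁻¹ : ℝ) : ℂ) * σ, ?_, ?_, by rw [ha]; ring⟩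
    · rw [Complex.normSq_mul, Complex.normSq_ofReal]
      have e1 : Complex.normSq σ = (1 - c) * (1 + c) := by linarith
      have e2 : (1 - c) = 2 * α ^ 2 := by rw [ha]; ring
      rw [e1]
      field_simp
      nlinarith
    · push_cast
      field_simp

end Pool.Agent.H45.LW
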